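import Pool.Agent.Lib.MP_0baed1_lc.Top

/-!
# The diagonal coanalytic set with the trivial action of the trivial group is admissible
-/

namespace Pool.Agent.Lib.MP_0baed1_lc

open Pool.Agent.Lib.MP_c7a422_lc.Z Pool.Agent.Lib.MP_c7a422_lc.Z.Ctx

universe u v w

variable {𝓜 : Ctx.{u}}

/-! ### Borel sets -/

theorem eq_of_subB {y z : 𝓜.M} (hy : ∀ x, 𝓜.E x y → 𝓜.E x (XB 𝓜))
    (hz : ∀ x, 𝓜.E x z → 𝓜.E x (XB 𝓜))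
    (h : ∀ x : Bai 𝓜, 𝓜.E (𝓜.code x) y ↔ 𝓜.E (𝓜.code x) z) : y = z := by
  refine 𝓜.ext fun x => ⟨fun hx => ?_, fun hx => ?_⟩
  · obtain ⟨a, rfl⟩ := mem_car.1 (hy x hx)
    exact (h a).1 hx
  · obtain ⟨a, rfl⟩ := mem_car.1 (hz x hx)
    exact (h a).2 hx

theorem isBorel_of_tBorel {A : ISet 𝓜 (Bai 𝓜)} (hA : TBorel A) {S : 𝓜.M}
    (hS : ∀ x, 𝓜.E x S → 𝓜.E x (XB 𝓜)) (hS' : ∀ x : Bai 𝓜, 𝓜.E (𝓜.code x) S ↔ A x) :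
    IsBorel 𝓜.E (XB 𝓜) (τB 𝓜) S := by
  intro F hF hτ
  let mm : ISet 𝓜 (Bai 𝓜 × El 𝓜.E F) := ⟨fun q => 𝓜.E (𝓜.code q.1) (𝓜.code q.2), dfn_mem_code⟩
  suffices h : ∃ y : El 𝓜.E F, ∀ x : Bai 𝓜, (mm (x, y) ↔ A x) by
    obtain ⟨⟨y, hy⟩, hyA⟩ := h
    have e : y = S := eq_of_subB (hF.1 y hy) hS fun x => (hyA x).trans (hS' x).symm
    exact e ▸ hy
  refine hA ⟨fun B => ∃ y : El 𝓜.E F, ∀ x : Bai 𝓜, (mm (x, y) ↔ B x), by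
    simp only [al_iff]; fun_prop⟩ ?_ ?_ ?_
  · intro O hO
    obtain ⟨z, hz, hz'⟩ := exists_setB O
    refine ⟨⟨z, hτ z (mem_τB.2 ⟨hz, fun x hx => ?_⟩)⟩, fun x => hz' x⟩
    have h1 : O (toB 𝓜 x) := by
      rw [← hz', code_toB]
      exact hx
    obtain ⟨ε, hε, h2⟩ := (tOpen_iff O).1 hO _ h1
    refine ⟨ε, hε, fun y hy => ?_⟩
    have h3 := h2 (toB 𝓜 y) hy
    rw [← hz', code_toB] at h3
    exact h3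
  · rintro B ⟨⟨y, hy⟩, hyB⟩
    obtain ⟨z, hz, hz'⟩ := exists_setB (cpl B)
    refine ⟨⟨z, hF.2.1 y z hy fun x => ?_⟩, fun x => hz' x⟩
    constructor
    · intro hx
      refine ⟨hz x hx, fun hxy => ?_⟩
      obtain ⟨a, rfl⟩ := mem_car.1 (hz x hx)
      exact (hz' a).1 hx ((hyB a).1 hxy)
    · rintro ⟨hx, hxy⟩
      obtain ⟨a, rfl⟩ := mem_car.1 hx
      exact (hz' a).2 fun h => hxy ((hyB a).2 h)
  · intro s hs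
    choose y hy using hs
    have hyd : 𝓜.Dfn y := by
      refine Dfn.of_graph (s := fun (n : 𝓜.N) (z : El 𝓜.E F) => ∀ x : Bai 𝓜, (mm (x, z) ↔ s n x))
        (by simp only [al_iff]; fun_prop) fun n z => ⟨fun h => ?_, ?_⟩
      · exact Subtype.ext (eq_of_subB (hF.1 _ (y n).2) (hF.1 _ z.2)
          fun x => (hy n x).trans (h x).symm)
      · rintro rfl
        exact hy n
    obtain ⟨z, hz, hz'⟩ := exists_setB (iun s)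
    refine ⟨⟨z, hF.2.2 𝓜.om (fun n => y (nj 𝓜 n)) z isOmega_om (fun1_iff.2 (by fun_prop))
      fun x => ?_⟩, fun x => hz' x⟩
    constructor
    · intro hx
      obtain ⟨a, rfl⟩ := mem_car.1 (hz x hx)
      obtain ⟨n, hn⟩ := (hz' a).1 hx
      refine ⟨jn n, ?_⟩
      rw [nj_jn]
      exact (hy n a).2 hn
    · rintro ⟨n, hn⟩
      obtain ⟨a, rfl⟩ := mem_car.1 (hF.1 _ (y _).2 x hn)
      exact (hz' a).2 ⟨nj 𝓜 n, (hy _ a).1 hn⟩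

/-- the diagonal set is a union of `ℵ₁` Borel sets -/
theorem union_SS (hCC : TCC 𝓜) {S : 𝓜.M} (hS : ∀ x, 𝓜.E x S → 𝓜.E x (XB 𝓜))
    (hS' : ∀ x : Bai 𝓜, 𝓜.E (𝓜.code x) S ↔ SS 𝓜 x) :
    IsUnionOfBorel 𝓜.E (XB 𝓜) (τB 𝓜) S := by
  obtain ⟨W, hW⟩ := exists_omegaOne 𝓜
  let P := 𝓜.pw (XB 𝓜)
  let mm : ISet 𝓜 (Bai 𝓜 × El 𝓜.E P) := ⟨fun q => 𝓜.E (𝓜.code q.1) (𝓜.code q.2), dfn_mem_code⟩
  have h1 : ∀ α : El 𝓜.E W, ∃ y : El 𝓜.E P, ∀ x : Bai 𝓜, (mm (x, y) ↔ Rk W x 0 0 α) := by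
    intro α
    obtain ⟨z, hz, hz'⟩ := exists_setB (⟨fun x => Rk W x 0 0 α, by fun_prop⟩ : ISet 𝓜 (Bai 𝓜))
    exact ⟨⟨z, mem_pw.2 hz⟩, hz'⟩
  choose b hb using h1
  have hbX : ∀ y : El 𝓜.E P, ∀ x, 𝓜.E x y.1 → 𝓜.E x (XB 𝓜) := fun y => mem_pw.1 y.2
  have hbd : 𝓜.Dfn b := by
    refine Dfn.of_graph (s := fun (α : El 𝓜.E W) (z : El 𝓜.E P) =>
      ∀ x : Bai 𝓜, (mm (x, z) ↔ Rk W x 0 0 α)) (by simp only [al_iff]; fun_prop)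
      fun α z => ⟨fun h => ?_, ?_⟩
    · exact Subtype.ext (eq_of_subB (hbX _) (hbX _) fun x => (hb α x).trans (h x).symm)
    · rintro rfl
      exact hb α
  refine ⟨W, P, hW, b, fun1_iff.2 hbd, fun α => ?_, fun x => ?_⟩
  · exact isBorel_of_tBorel (tborel_rk hW α 0 0) (hbX _) (hb α)
  · constructor
    · intro hx
      obtain ⟨a, rfl⟩ := mem_car.1 (hS x hx)
      obtain ⟨α, hα⟩ := (ss_iff hW hCC a).1 ((hS' a).1 hx)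
      exact ⟨α, (hb α a).2 hα⟩
    · rintro ⟨α, hα⟩
      obtain ⟨a, rfl⟩ := mem_car.1 (hbX _ x hα)
      exact (hS' a).2 ((ss_iff hW hCC a).2 ⟨α, (hb α a).1 hα⟩)

/-! ### The trivial group -/

/-- the set with one element -/
noncomputable def G1 (𝓜 : Ctx.{u}) : 𝓜.M := 𝓜.up 𝓜.em 𝓜.em

/-- the element -/
noncomputable def g1 (𝓜 : Ctx.{u}) : El 𝓜.E (G1 𝓜) := ⟨𝓜.em, (mem_up _ _ _).2 (Or.inl rfl)⟩

theorem eq_g1 (g : El 𝓜.E (G1 𝓜)) : g = g1 𝓜 := by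
  refine Subtype.ext ?_
  have h := (mem_up _ _ _).1 g.2
  rw [or_self] at h
  exact h

/-- the metric of the trivial group -/
noncomputable def ρ1 (𝓜 : Ctx.{u}) : IFun 𝓜 (El 𝓜.E (G1 𝓜) × El 𝓜.E (G1 𝓜)) 𝓜.R :=
  ⟨fun _ => 0, by fun_prop⟩

/-- the topology of the trivial group -/
noncomputable def τ1 (𝓜 : Ctx.{u}) : 𝓜.M := (exists_topology (ρ1 𝓜)).choose

theorem mem_τ1 {O : 𝓜.M} : 𝓜.E O (τ1 𝓜) ↔ OpenF (ρ1 𝓜) O := (exists_topology (ρ1 𝓜)).choose_spec O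

theorem G1_mem_τ1 : 𝓜.E (G1 𝓜) (τ1 𝓜) :=
  mem_τ1.2 ⟨fun _ h => h, fun _ _ => ⟨1, one_pos, fun y _ => y.2⟩⟩

theorem isPolish1 (𝓜 : Ctx.{u}) : IsPolish 𝓜.rl (G1 𝓜) (τ1 𝓜) := by
  refine ⟨completelyMetrizable_iff.2 ⟨ρ1 𝓜, ?_, ?_, fun O => mem_τ1⟩, ?_⟩
  · refine ⟨⟨fun x _ => rfl, fun x y _ _ => rfl, fun x y z _ _ _ => ?_⟩, fun x y _ _ _ => ?_⟩
    · show (0 : 𝓜.R) ≤ 0 + 0
      rw [add_zero]
    · rw [eq_g1 x, eq_g1 y]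
  · intro a _ _
    exact ⟨g1 𝓜, trivial, fun ε hε => ⟨0, fun m _ => le_of_lt hε⟩⟩
  · exact isSeparable_of_seq (fun O => mem_τ1) ⟨fun _ => g1 𝓜, by fun_prop⟩
      fun x ε hε => ⟨0, hε⟩

theorem isPolishGroup1 (𝓜 : Ctx.{u}) :
    IsPolishGroup 𝓜.rl (G1 𝓜) (τ1 𝓜) (fun _ _ => g1 𝓜) := by
  have hall : ∀ (O : 𝓜.M) (x y : El 𝓜.E (G1 𝓜)), 𝓜.E x.1 O → 𝓜.E y.1 O := by
    intro O x y hx
    rw [eq_g1 x] at hx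
    rw [eq_g1 y]
    exact hx
  refine ⟨isPolish1 𝓜, fun2_iff.2 (by fun_prop), fun _ _ _ => rfl,
    ⟨g1 𝓜, fun _ => g1 𝓜, fun1_iff.2 (by fun_prop), fun x => ?_, fun x O hO hx => ?_⟩,
    fun x y O hO hx => ?_⟩
  · have h := (eq_g1 x).symm
    exact ⟨h, h, rfl, rfl⟩
  · exact ⟨O, hO, hall O _ _ hx, fun _ _ => hx⟩
  · exact ⟨O, O, hO, hO, hall O _ _ hx, hall O _ _ hx, fun _ _ _ _ => hx⟩

/-- the data are admissible -/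
theorem admissible_SS (hCC : TCC 𝓜) {S : 𝓜.M} (hS : ∀ x, 𝓜.E x S → 𝓜.E x (XB 𝓜))
    (hS' : ∀ x : Bai 𝓜, 𝓜.E (𝓜.code x) S ↔ SS 𝓜 x) :
    Admissible 𝓜.rl (τ1 𝓜) (fun _ _ => g1 𝓜) (XB 𝓜) (τB 𝓜)
      (fun (_ : El 𝓜.E (G1 𝓜)) (x : El 𝓜.E S) => x) := by
  refine ⟨isPolishGroup1 𝓜, isPolishB 𝓜, union_SS hCC hS hS', ⟨fun2_iff.2 (by fun_prop),
    fun _ _ _ => rfl, fun _ _ _ => rfl⟩, fun g x O hO hx => ?_⟩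
  exact ⟨G1 𝓜, O, G1_mem_τ1, hO, g.2, hx, fun _ x' _ hx' => hx'⟩

end Pool.Agent.Lib.MP_0baed1_lc
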