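import Pool.Agent.Lib.MP_0baed1_lc.Rank

/-!
# The Baire space of the model is a separable complete metric space
-/

namespace Pool.Agent.Lib.MP_0baed1_lc

open Pool.Agent.Lib.MP_c7a422_lc.Z Pool.Agent.Lib.MP_c7a422_lc.Z.Ctx

universe u v w

variable {𝓜 : Ctx.{u}}

/-- the set of the numbers `1 / (n + 1)`, where `x` and `y` differ at `n` -/
def dset (x y : Bai 𝓜) (t : 𝓜.R) : Prop :=
  t = 0 ∨ ∃ n : 𝓜.N, x n ≠ y n ∧ t = 1 / ((n : 𝓜.R) + 1)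

@[fun_prop]
theorem dfn_dset {γ : Type*} [Rep 𝓜 γ] {x y : γ → Bai 𝓜} {t : γ → 𝓜.R} (hx : 𝓜.Dfn x)
    (hy : 𝓜.Dfn y) (ht : 𝓜.Dfn t) : 𝓜.Dfn (fun c => dset (x c) (y c) (t c)) := by
  unfold dset
  fun_prop

/-- the metric of the Baire space -/
noncomputable def dB (𝓜 : Ctx.{u}) : IFun 𝓜 (Bai 𝓜 × Bai 𝓜) 𝓜.R :=
  ⟨fun p => 𝓜.sup (fun t => dset p.1 p.2 t), by fun_prop⟩

theorem dB_apply (x y : Bai 𝓜) : dB 𝓜 (x, y) = 𝓜.sup (fun t => dset x y t) := rfl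

theorem dset_bdd (x y : Bai 𝓜) : ∃ b, ∀ t, dset x y t → t ≤ b := by
  refine ⟨1, fun t ht => ?_⟩
  rcases ht with rfl | ⟨n, -, rfl⟩
  · exact zero_le_one
  · have := toR_nonneg n
    rw [div_le_one (by linarith)]
    linarith

theorem dfn_dset' (x y : Bai 𝓜) : 𝓜.Dfn (fun t => dset x y t) := by fun_prop

theorem dB_nonneg (x y : Bai 𝓜) : 0 ≤ dB 𝓜 (x, y) :=
  le_sup (dfn_dset' x y) (dset_bdd x y) (Or.inl rfl)

theorem le_dB {x y : Bai 𝓜} {n : 𝓜.N} (h : x n ≠ y n) : 1 / ((n : 𝓜.R) + 1) ≤ dB 𝓜 (x, y) :=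
  le_sup (dfn_dset' x y) (dset_bdd x y) (Or.inr ⟨n, h, rfl⟩)

theorem dB_le {x y : Bai 𝓜} {n : 𝓜.N} (h : ∀ m < n, x m = y m) :
    dB 𝓜 (x, y) ≤ 1 / ((n : 𝓜.R) + 1) := by
  refine sup_le (dfn_dset' x y) ⟨0, Or.inl rfl⟩ fun t ht => ?_
  have hn := toR_nonneg n
  rcases ht with rfl | ⟨m, hm, rfl⟩
  · positivity
  · have h1 : n ≤ m := by
      by_contra hcon
      exact hm (h m (not_le.1 hcon))
    have h2 : (n : 𝓜.R) ≤ m := toR_le.2 h1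
    exact one_div_le_one_div_of_le (by linarith) (by linarith)

theorem agree_of_dB_lt {x y : Bai 𝓜} {n : 𝓜.N} (h : dB 𝓜 (x, y) < 1 / ((n : 𝓜.R) + 1)) :
    ∀ k, k ≤ n → x k = y k := by
  intro k hk
  by_contra hcon
  have h1 := le_dB hcon
  have h2 : (k : 𝓜.R) ≤ n := toR_le.2 hk
  have h3 := toR_nonneg k
  have h4 : 1 / ((n : 𝓜.R) + 1) ≤ 1 / ((k : 𝓜.R) + 1) :=
    one_div_le_one_div_of_le (by linarith) (by linarith)
  linarith

theorem metB : MetOn (univ : ISet 𝓜 (Bai 𝓜)) (dB 𝓜) where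
  self x _ := by
    refine le_antisymm ?_ (dB_nonneg x x)
    refine sup_le (dfn_dset' x x) ⟨0, Or.inl rfl⟩ fun t ht => ?_
    rcases ht with rfl | ⟨m, hm, rfl⟩
    · exact le_rfl
    · exact absurd rfl hm
  symm x y _ _ := by
    rw [dB_apply, dB_apply]
    congr 1
    funext t
    apply propext
    unfold dset
    simp only [ne_comm]
  tri x y z _ _ _ := by
    refine sup_le (dfn_dset' x z) ⟨0, Or.inl rfl⟩ fun t ht => ?_
    rcases ht with rfl | ⟨m, hm, rfl⟩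
    · exact add_nonneg (dB_nonneg _ _) (dB_nonneg _ _)
    · by_cases h : x m = y m
      · have h1 : y m ≠ z m := fun h2 => hm (h.trans h2)
        have h2 := le_dB h1
        have h3 := dB_nonneg x y
        linarith
      · have h2 := le_dB h
        have h3 := dB_nonneg y z
        linarith
  sep x y _ _ h := by
    ext n
    by_contra hcon
    have h2 := le_dB hcon
    rw [h] at h2
    have h3 := toR_nonneg n
    have h4 : 0 < 1 / ((n : 𝓜.R) + 1) := by positivity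
    linarith

theorem inv_pos_N (n : 𝓜.N) : 0 < 1 / ((n : 𝓜.R) + 1) := by
  have := toR_nonneg n
  positivity

theorem inv_lt_N (n : 𝓜.N) : 1 / (((n + 1 : 𝓜.N) : 𝓜.R) + 1) < 1 / ((n : 𝓜.R) + 1) := by
  have := toR_nonneg n
  push_cast
  exact one_div_lt_one_div_of_lt (by linarith) (by linarith)

theorem completeB : Complete (univ : ISet 𝓜 (Bai 𝓜)) (dB 𝓜) := by
  intro a _ ha
  have h1 : ∀ j : 𝓜.N, ∃ n, ∀ k, n ≤ k → ∀ i, i ≤ j → a k i = a n i := by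
    intro j
    obtain ⟨n, hn⟩ := ha _ (inv_pos_N (j + 1))
    exact ⟨n, fun k hk i hi =>
      agree_of_dB_lt (lt_of_le_of_lt (hn k n hk le_rfl) (inv_lt_N j)) i hi⟩
  have h2 : ∀ j : 𝓜.N, ∃ v : 𝓜.N, ∃ n, ∀ k, n ≤ k → a k j = v := by
    intro j
    obtain ⟨n, hn⟩ := h1 j
    exact ⟨a n j, n, fun k hk => hn k hk j le_rfl⟩
  choose y hy using h2
  have hyd : 𝓜.Dfn y := by
    refine Dfn.of_graph (s := fun (j v : 𝓜.N) => ∃ n, ∀ k, n ≤ k → a k j = v)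
      (by simp only [al_iff, imp_iff_not_or]; fun_prop) fun j v => ⟨fun h => ?_, ?_⟩
    · obtain ⟨n, hn⟩ := h
      obtain ⟨m, hm⟩ := hy j
      rw [← hn _ (le_max_left n m), ← hm _ (le_max_right n m)]
    · rintro rfl
      exact hy j
  refine ⟨⟨y, hyd⟩, trivial, fun ε hε => ?_⟩
  obtain ⟨j, hj⟩ := exists_one_div_lt hε
  obtain ⟨n, hn⟩ := h1 j
  refine ⟨n, fun m hm => le_trans ?_ hj.le⟩
  refine dB_le fun i hi => ?_
  show a m i = y i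
  obtain ⟨l, hl⟩ := hy i
  rw [← hl _ (le_max_left l n), hn m hm i hi.le, hn _ (le_max_right l n) i hi.le]

/-- the eventually zero sequences are dense -/
theorem exists_denseB (𝓜 : Ctx.{u}) :
    ∃ e : IFun 𝓜 𝓜.N (Bai 𝓜), ∀ (x : Bai 𝓜) (n : 𝓜.N), ∃ m, ∀ k < n, e m k = x k := by
  classical
  have h1 : ∀ m : 𝓜.N, ∃ z : Bai 𝓜, (∃ n, m = pairN n (cd z n) ∧ ∀ k, n ≤ k → z k = 0) ∨
      ((¬ ∃ (z : Bai 𝓜) (n : 𝓜.N), m = pairN n (cd z n) ∧ ∀ k, n ≤ k → z k = 0) ∧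
        ∀ k, z k = 0) := by
    intro m
    by_cases h : ∃ (z : Bai 𝓜) (n : 𝓜.N), m = pairN n (cd z n) ∧ ∀ k, n ≤ k → z k = 0
    · obtain ⟨z, n, h⟩ := h
      exact ⟨z, Or.inl ⟨n, h⟩⟩
    · exact ⟨⟨fun _ => 0, by fun_prop⟩, Or.inr ⟨h, fun _ => rfl⟩⟩
  choose e he using h1
  have hu : ∀ (z z' : Bai 𝓜) (n n' : 𝓜.N), (∀ k, n ≤ k → z k = 0) → (∀ k, n' ≤ k → z' k = 0) →
      pairN n (cd z n) = pairN n' (cd z' n') → z = z' := by
    intro z z' n n' h h' h2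
    obtain ⟨rfl, h3⟩ := pairN_inj h2
    ext k
    rcases lt_or_ge k n with h4 | h4
    · exact cd_inj h3 k h4
    · rw [h k h4, h' k h4]
  have hed : 𝓜.Dfn e := by
    refine Dfn.of_graph (s := fun (m : 𝓜.N) (z : Bai 𝓜) =>
      (∃ n, m = pairN n (cd z n) ∧ ∀ k, n ≤ k → z k = 0) ∨
      ((¬ ∃ (z : Bai 𝓜) (n : 𝓜.N), m = pairN n (cd z n) ∧ ∀ k, n ≤ k → z k = 0) ∧
        ∀ k, z k = 0)) (by simp only [al_iff, imp_iff_not_or]; fun_prop)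
      fun m z => ⟨fun h => ?_, ?_⟩
    · rcases h with ⟨n, h, h'⟩ | ⟨h, h'⟩
      · rcases he m with ⟨n', h2, h2'⟩ | ⟨h2, -⟩
        · exact hu _ _ _ _ h2' h' (h2.symm.trans h)
        · exact absurd ⟨z, n, h, h'⟩ h2
      · rcases he m with ⟨n', h2, h2'⟩ | ⟨-, h2⟩
        · exact absurd ⟨_, n', h2, h2'⟩ h
        · ext k
          rw [h2, h']
    · rintro rfl
      exact he m
  refine ⟨⟨e, hed⟩, fun x n => ⟨pairN n (cd x n), fun k hk => ?_⟩⟩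
  show e (pairN n (cd x n)) k = x k
  obtain ⟨z, hz, hz'⟩ : ∃ z : Bai 𝓜, (∀ k < n, z k = x k) ∧ ∀ k, n ≤ k → z k = 0 :=
    ⟨⟨fun k => if k < n then x k else 0, by fun_prop⟩, fun k hk => if_pos hk,
      fun k hk => if_neg (not_lt.2 hk)⟩
  have hcd : cd z n = cd x n := cd_congr hz
  have hm : pairN n (cd x n) = pairN n (cd z n) := by rw [hcd]
  generalize pairN n (cd x n) = m at hm ⊢
  rcases he m with ⟨n', h2, h2'⟩ | ⟨h2, -⟩
  · rw [hu (e m) z n' n h2' hz' (h2.symm.trans hm)]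
    exact hz k hk
  · exact absurd ⟨z, n, hm, hz'⟩ h2

theorem tOpen_iff (O : ISet 𝓜 (Bai 𝓜)) :
    TOpen O ↔ ∀ x, O x → ∃ ε > 0, ∀ y, dB 𝓜 (x, y) < ε → O y := by
  refine forall_congr' fun x => imp_congr_right fun _ => ⟨?_, ?_⟩
  · rintro ⟨n, hn⟩
    exact ⟨_, inv_pos_N n, fun y hy => hn y fun k hk => agree_of_dB_lt hy k hk.le⟩
  · rintro ⟨ε, hε, h⟩
    obtain ⟨n, hn⟩ := exists_one_div_lt hε
    exact ⟨n, fun y hy => h y (lt_of_le_of_lt (dB_le hy) hn)⟩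

end Pool.Agent.Lib.MP_0baed1_lc
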