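import Pool.Agent.Lib.MP_0baed1_lc.Defs
import Pool.Agent.Lib.MP_c7a422_lc.Z.Seq
import Pool.Agent.Lib.MP_c7a422_lc.Z.FinTr

/-!
# Base: the Baire space of the model, codes of initial segments, typed notions
-/

namespace Pool.Agent.Lib.MP_0baed1_lc

open Pool.Agent.Lib.MP_c7a422_lc.Z Pool.Agent.Lib.MP_c7a422_lc.Z.Ctx

universe u v w

variable {𝓜 : Ctx.{u}}

/-- the Baire space of the model -/
abbrev Bai (𝓜 : Ctx.{u}) : Type u := IFun 𝓜 𝓜.N 𝓜.N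

/-- the code of the initial segment of length `n` of `y` -/
noncomputable def cd (y : Bai 𝓜) (n : 𝓜.N) : 𝓜.N :=
  nrec 0 ⟨fun p : 𝓜.N × 𝓜.N => pairN p.2 (y p.1) + 1, by fun_prop⟩ n

@[fun_prop]
theorem dfn_cd {γ : Type*} [Rep 𝓜 γ] {y : γ → Bai 𝓜} {n : γ → 𝓜.N} (hy : 𝓜.Dfn y)
    (hn : 𝓜.Dfn n) : 𝓜.Dfn (fun c => cd (y c) (n c)) := by
  unfold cd
  fun_prop

theorem cd_zero (y : Bai 𝓜) : cd y 0 = 0 := nrec_zero _ _

theorem cd_succ (y : Bai 𝓜) (n : 𝓜.N) : cd y (n + 1) = pairN (cd y n) (y n) + 1 := by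
  unfold cd
  rw [nrec_succ]
  rfl

theorem cd_congr {y y' : Bai 𝓜} {n : 𝓜.N} (h : ∀ k < n, y k = y' k) : cd y n = cd y' n := by
  revert h
  refine ind (P := fun n => (∀ k < n, y k = y' k) → cd y n = cd y' n)
    (by simp only [al_iff, imp_iff_not_or]; fun_prop) (fun _ => by rw [cd_zero, cd_zero])
    (fun n ih h => ?_) n
  rw [cd_succ, cd_succ, ih fun k hk => h k (hk.trans (by simp)), h n (by simp)]

theorem cd_inj {y y' : Bai 𝓜} {n : 𝓜.N} (h : cd y n = cd y' n) : ∀ k < n, y k = y' k := by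
  revert h
  refine ind (P := fun n => cd y n = cd y' n → ∀ k < n, y k = y' k)
    (by simp only [al_iff, imp_iff_not_or]; fun_prop)
    (fun _ k hk => absurd (N_nonneg k) (not_le.2 hk)) (fun n ih h k hk => ?_) n
  rw [cd_succ, cd_succ] at h
  obtain ⟨h1, h2⟩ := pairN_inj (N_add_one_inj h)
  rcases (N_lt_add_one_iff.1 hk).lt_or_eq with h3 | h3
  · exact ih h1 k h3
  · rw [h3]
    exact h2

/-! ### Decoding of pairs -/

theorem exists_dec (𝓜 : Ctx.{u}) : ∃ f g : Bai 𝓜, ∀ a b, f (pairN a b) = a ∧ g (pairN a b) = b := by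
  classical
  have h1 : ∀ m : 𝓜.N, ∃ a : 𝓜.N, (∃ b, m = pairN a b) ∨ ((¬ ∃ a b, m = pairN a b) ∧ a = 0) := by
    intro m
    by_cases h : ∃ a b, m = pairN a b
    · obtain ⟨a, b, h⟩ := h
      exact ⟨a, Or.inl ⟨b, h⟩⟩
    · exact ⟨0, Or.inr ⟨h, rfl⟩⟩
  have h2 : ∀ m : 𝓜.N, ∃ b : 𝓜.N, (∃ a, m = pairN a b) ∨ ((¬ ∃ a b, m = pairN a b) ∧ b = 0) := by
    intro m
    by_cases h : ∃ a b, m = pairN a b
    · obtain ⟨a, b, h⟩ := h
      exact ⟨b, Or.inl ⟨a, h⟩⟩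
    · exact ⟨0, Or.inr ⟨h, rfl⟩⟩
  choose f hf using h1
  choose g hg using h2
  have hfd : 𝓜.Dfn f := by
    refine Dfn.of_graph (s := fun (m a : 𝓜.N) => (∃ b, m = pairN a b) ∨
      ((¬ ∃ a b, m = pairN a b) ∧ a = 0)) (by fun_prop) fun m a => ⟨fun h => ?_, ?_⟩
    · rcases h with ⟨b, h⟩ | ⟨h, h'⟩
      · rcases hf m with ⟨b', h2⟩ | ⟨h2, -⟩
        · exact (pairN_inj (h2.symm.trans h)).1
        · exact absurd ⟨a, b, h⟩ h2
      · rcases hf m with ⟨b', h2⟩ | ⟨-, h2⟩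
        · exact absurd ⟨_, b', h2⟩ h
        · rw [h2, h']
    · rintro rfl
      exact hf m
  have hgd : 𝓜.Dfn g := by
    refine Dfn.of_graph (s := fun (m b : 𝓜.N) => (∃ a, m = pairN a b) ∨
      ((¬ ∃ a b, m = pairN a b) ∧ b = 0)) (by fun_prop) fun m b => ⟨fun h => ?_, ?_⟩
    · rcases h with ⟨a, h⟩ | ⟨h, h'⟩
      · rcases hg m with ⟨a', h2⟩ | ⟨h2, -⟩
        · exact (pairN_inj (h2.symm.trans h)).2
        · exact absurd ⟨a, b, h⟩ h2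
      · rcases hg m with ⟨a', h2⟩ | ⟨-, h2⟩
        · exact absurd ⟨a', _, h2⟩ h
        · rw [h2, h']
    · rintro rfl
      exact hg m
  refine ⟨⟨f, hfd⟩, ⟨g, hgd⟩, fun a b => ⟨?_, ?_⟩⟩
  · show f (pairN a b) = a
    rcases hf (pairN a b) with ⟨b', h⟩ | ⟨h, -⟩
    · exact (pairN_inj h).1.symm
    · exact absurd ⟨a, b, rfl⟩ h
  · show g (pairN a b) = b
    rcases hg (pairN a b) with ⟨b', h⟩ | ⟨h, -⟩
    · exact (pairN_inj h).2.symm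
    · exact absurd ⟨a, b, rfl⟩ h

/-- the first component of a pair of natural numbers -/
noncomputable def p1 (𝓜 : Ctx.{u}) : Bai 𝓜 := (exists_dec 𝓜).choose

/-- the second component of a pair of natural numbers -/
noncomputable def p2 (𝓜 : Ctx.{u}) : Bai 𝓜 := (exists_dec 𝓜).choose_spec.choose

@[simp] theorem p1_pairN (a b : 𝓜.N) : p1 𝓜 (pairN a b) = a :=
  ((exists_dec 𝓜).choose_spec.choose_spec a b).1

@[simp] theorem p2_pairN (a b : 𝓜.N) : p2 𝓜 (pairN a b) = b :=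
  ((exists_dec 𝓜).choose_spec.choose_spec a b).2

/-! ### Typed notions -/

/-- `x` belongs to the section at `c` of the universal analytic set. -/
def InU (c x : Bai 𝓜) : Prop := ∃ z : Bai 𝓜, ∀ n, c (pairN n (pairN (cd z n) (cd x n))) = 0

/-- the diagonal coanalytic set -/
def SS (𝓜 : Ctx.{u}) : ISet 𝓜 (Bai 𝓜) :=
  ⟨fun x => ¬ InU x x, by unfold InU; simp only [al_iff]; fun_prop⟩

theorem SS_apply (x : Bai 𝓜) : SS 𝓜 x ↔ ¬ InU x x := Iff.rfl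

/-- the diagonal set is not a section of the universal analytic set -/
theorem diag (c : Bai 𝓜) (h : ∀ x, SS 𝓜 x ↔ InU c x) : False := by
  have h1 := h c
  rw [SS_apply] at h1
  exact iff_not_self h1.symm

/-- all games with moves in `B` are determined -/
def TDet (𝓜 : Ctx.{u}) (B : Type u) [Rep 𝓜 B] : Prop :=
  ∀ P : ISet 𝓜 (IFun 𝓜 𝓜.N B × IFun 𝓜 𝓜.N B),
    (∃ F : IFun 𝓜 (IFun 𝓜 𝓜.N B) (IFun 𝓜 𝓜.N B),
      (∀ y y' : IFun 𝓜 𝓜.N B, ∀ n, (∀ k < n, y k = y' k) → F y n = F y' n) ∧ ∀ y, P (F y, y)) ∨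
    ∃ F : IFun 𝓜 (IFun 𝓜 𝓜.N B) (IFun 𝓜 𝓜.N B),
      (∀ x x' : IFun 𝓜 𝓜.N B, ∀ n, (∀ k ≤ n, x k = x' k) → F x n = F x' n) ∧ ∀ x, ¬ P (x, F x)

/-- countable choice -/
def TCC (𝓜 : Ctx.{u}) : Prop :=
  ∀ (α : Type u) [Rep 𝓜 α] (s : ISet 𝓜 (𝓜.N × α)), (∀ n, ∃ a, s (n, a)) →
    ∃ f : IFun 𝓜 𝓜.N α, ∀ n, s (n, f n)

/-- dependent choices -/
def TDC (𝓜 : Ctx.{u}) : Prop :=
  ∀ (α : Type u) [Rep 𝓜 α] (s : ISet 𝓜 (α × α)), Nonempty α → (∀ a, ∃ b, s (a, b)) →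
    ∃ f : IFun 𝓜 𝓜.N α, ∀ n, s (f n, f (n + 1))

/-- the internal set `S` is countable (or empty) -/
def TCount {Y : Type v} [Rep 𝓜 Y] (S : ISet 𝓜 Y) : Prop :=
  ∃ e : IFun 𝓜 𝓜.N Y, ∀ y, S y → ∃ n, e n = y

end Pool.Agent.Lib.MP_0baed1_lc
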