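import Pool.Agent.Lib.MP_0baed1_lc.Base

/-!
# Bridge between the notions of the model and the typed notions
-/

namespace Pool.Agent.Lib.MP_0baed1_lc

open Pool.Agent.Lib.MP_c7a422_lc.Z Pool.Agent.Lib.MP_c7a422_lc.Z.Ctx

universe u v w

variable {𝓜 : Ctx.{u}}

/-! ### Functions and relations -/

theorem fun1_iff {A B : 𝓜.M} {f : El 𝓜.E A → El 𝓜.E B} : Fun1 𝓜.E f ↔ 𝓜.Dfn f := by
  constructor
  · rintro ⟨g, hg⟩
    refine ⟨g, fun p => ?_⟩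
    rw [hg]
    simp only [isPair_iff]
    show (∃ x : El 𝓜.E A, 𝓜.op p.1.1 p.2.1 = 𝓜.op x.1 (f x).1) ↔ _
    simp only [op_inj]
    constructor
    · rintro ⟨x, h1, h2⟩
      obtain rfl := Subtype.ext h1
      exact (Subtype.ext h2).symm
    · intro h
      exact ⟨p.1, rfl, by rw [h]⟩
  · intro hf
    refine ⟨graph ⟨f, hf⟩, fun z => ?_⟩
    rw [mem_graph]
    simp only [isPair_iff]
    rfl

theorem fun2_iff {A B C : 𝓜.M} {f : El 𝓜.E A → El 𝓜.E B → El 𝓜.E C} :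
    Fun2 𝓜.E f ↔ 𝓜.Dfn (fun p : El 𝓜.E A × El 𝓜.E B => f p.1 p.2) := by
  constructor
  · rintro ⟨g, hg⟩
    refine ⟨g, ?_⟩
    rintro ⟨⟨a, b⟩, c⟩
    rw [hg]
    simp only [isPair_iff]
    show (∃ (x : El 𝓜.E A) (y : El 𝓜.E B) (q : 𝓜.M), q = 𝓜.op x.1 y.1 ∧
      𝓜.op (𝓜.op a.1 b.1) c.1 = 𝓜.op q (f x y).1) ↔ f a b = c
    simp only [op_inj]
    constructor
    · rintro ⟨x, y, q, rfl, h1, h2⟩
      rw [op_inj] at h1
      obtain rfl := Subtype.ext h1.1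
      obtain rfl := Subtype.ext h1.2
      exact (Subtype.ext h2).symm
    · intro h
      exact ⟨a, b, _, rfl, rfl, by rw [h]⟩
  · intro hf
    refine ⟨graph ⟨_, hf⟩, fun z => ?_⟩
    rw [mem_graph]
    simp only [isPair_iff]
    constructor
    · rintro ⟨⟨a, b⟩, h⟩
      exact ⟨a, b, _, rfl, h⟩
    · rintro ⟨a, b, q, rfl, h⟩
      exact ⟨(a, b), h⟩

theorem rel2_iff {A B : 𝓜.M} {r : El 𝓜.E A → El 𝓜.E B → Prop} :
    Rel2 𝓜.E r ↔ 𝓜.Dfn (fun p : El 𝓜.E A × El 𝓜.E B => r p.1 p.2) := by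
  constructor
  · rintro ⟨g, hg⟩
    rw [dfn_iff]
    refine ⟨g, ?_⟩
    rintro ⟨a, b⟩
    rw [hg]
    simp only [isPair_iff]
    show (∃ (x : El 𝓜.E A) (y : El 𝓜.E B), r x y ∧ 𝓜.op a.1 b.1 = 𝓜.op x.1 y.1) ↔ r a b
    simp only [op_inj]
    constructor
    · rintro ⟨x, y, h, h1, h2⟩
      obtain rfl := Subtype.ext h1
      obtain rfl := Subtype.ext h2
      exact h
    · intro h
      exact ⟨a, b, h, rfl, rfl⟩
  · intro hr
    obtain ⟨m, hm⟩ := exists_setOf hr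
    refine ⟨m, fun z => ?_⟩
    rw [hm]
    simp only [isPair_iff]
    constructor
    · rintro ⟨⟨a, b⟩, h, rfl⟩
      exact ⟨a, b, h, rfl⟩
    · rintro ⟨a, b, h, rfl⟩
      exact ⟨(a, b), h, rfl⟩

theorem dfn_mem_set (X s : 𝓜.M) : 𝓜.Dfn (fun x : El 𝓜.E X => 𝓜.E x.1 s) :=
  dfn_iff.2 ⟨s, fun _ => Iff.rfl⟩

/-! ### Natural numbers -/

theorem isOmega_om : IsOmega 𝓜.E 𝓜.om := fun _ => mem_om

theorem isOmega_iff {w : 𝓜.M} : IsOmega 𝓜.E w ↔ w = 𝓜.om := by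
  constructor
  · intro h
    exact 𝓜.ext fun n => (h n).trans mem_om.symm
  · rintro rfl
    exact isOmega_om

theorem exists_njn (𝓜 : Ctx.{u}) : ∃ f : IFun 𝓜 𝓜.Om 𝓜.N, ∀ x, jn (f x) = x := by
  choose f hf using fun x : 𝓜.Om => jn_surj x
  refine ⟨⟨f, Dfn.of_graph (s := fun x n => jn n = x) (by fun_prop) fun x n => ?_⟩, hf⟩
  constructor
  · intro h
    exact jn_inj (by rw [hf, h])
  · rintro rfl
    exact hf x

/-- the inverse of `jn` -/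
noncomputable def nj (𝓜 : Ctx.{u}) : IFun 𝓜 𝓜.Om 𝓜.N := (exists_njn 𝓜).choose

@[simp] theorem jn_nj (x : 𝓜.Om) : jn (nj 𝓜 x) = x := (exists_njn 𝓜).choose_spec x

@[simp] theorem nj_jn (n : 𝓜.N) : nj 𝓜 (jn n) = n := jn_inj (by rw [jn_nj])

theorem isSucc_iff {n m : 𝓜.N} : IsSucc 𝓜.E (jn n).1 (jn m).1 ↔ m = n + 1 := by
  constructor
  · intro h
    have h1 := eq_sc h
    refine jn_inj (h1.trans ?_)
    rw [jn_succ]
    rfl
  · rintro rfl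
    intro z
    rw [jn_succ]
    exact mem_sc

theorem mem_jn_jn {n m : 𝓜.N} : 𝓜.E (jn n).1 (jn m).1 ↔ n < m := by
  rw [mem_jn]
  constructor
  · rintro ⟨i, hi, h⟩
    rwa [← jn_inj h]
  · intro h
    exact ⟨n, h, rfl⟩

theorem leNat_iff {n m : 𝓜.N} : LeNat 𝓜.E (jn n).1 (jn m).1 ↔ n ≤ m := by
  unfold LeNat
  rw [mem_jn_jn, le_iff_lt_or_eq]
  constructor
  · rintro (h | h)
    · exact Or.inl h
    · exact Or.inr (jn_inj h)
  · rintro (h | rfl)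
    · exact Or.inl h
    · exact Or.inr rfl

/-! ### Dependent choices -/

theorem tdc_of_dc (h : DC 𝓜.E) : TDC 𝓜 := by
  intro α _ s ⟨a₀⟩ hs
  -- elements of `α` are elements of the set of all codes
  have hj : ∀ x : El 𝓜.E (𝓜.car α), ∃ a : α, 𝓜.code a = x.1 := fun x => mem_car.1 x.2
  choose j hj using hj
  have hjc : 𝓜.CodeMap j := hj
  have hjd : 𝓜.Dfn j := hjc.dfn
  obtain ⟨f, hf, hf'⟩ := h (𝓜.car α) 𝓜.om (fun x y => s (j x, j y)) isOmega_om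
    (rel2_iff.2 (by fun_prop)) ⟨_, code_mem a₀⟩ (fun x => by
      obtain ⟨b, hb⟩ := hs (j x)
      refine ⟨⟨𝓜.code b, code_mem b⟩, ?_⟩
      have e : j ⟨𝓜.code b, code_mem b⟩ = b := code_inj (hj _)
      rw [e]
      exact hb)
  rw [fun1_iff] at hf
  refine ⟨⟨fun n => j (f (jn n)), by fun_prop⟩, fun n => ?_⟩
  exact hf' (jn n) (jn (n + 1)) (isSucc_iff.2 rfl)

/-! ### Countable sets -/

theorem isCountable_of_enum {A V : 𝓜.M} (e : IFun 𝓜 𝓜.N (El 𝓜.E V))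
    (h : ∀ x, 𝓜.E x A → ∃ n, (e n).1 = x) : IsCountable 𝓜.E A := by
  let ee : ISet 𝓜 (El 𝓜.E V × El 𝓜.E A) := ⟨fun q => 𝓜.code q.1 = 𝓜.code q.2, dfn_eq_code⟩
  have h1 : ∀ x : El 𝓜.E A, ∃ n : 𝓜.N, (e n).1 = x.1 ∧ ∀ m, (e m).1 = x.1 → n ≤ m := by
    intro x
    exact exists_least (P := fun n => (e n).1 = x.1)
      (show 𝓜.Dfn (fun n => ee (e n, x)) by fun_prop) (h x.1 x.2)
  choose f hf using h1
  have hfd : 𝓜.Dfn f := by
    refine Dfn.of_graph (s := fun (x : El 𝓜.E A) (n : 𝓜.N) => ee (e n, x) ∧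
      ∀ m, ee (e m, x) → n ≤ m) (by simp only [al_iff, imp_iff_not_or]; fun_prop)
      fun x n => ⟨fun hn => ?_, ?_⟩
    · exact le_antisymm ((hf x).2 _ hn.1) (hn.2 _ (hf x).1)
    · rintro rfl
      exact hf x
  refine ⟨𝓜.om, isOmega_om, fun x => jn (f x), fun1_iff.2 (by fun_prop), fun x y hxy => ?_⟩
  have hxy' : f x = f y := jn_inj (congrArg Subtype.val hxy)
  refine Subtype.ext ?_
  rw [← (hf x).1, ← (hf y).1, hxy']

theorem enum_of_isCountable {A : 𝓜.M} (hA : IsCountable 𝓜.E A) (x₀ : El 𝓜.E A) :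
    ∃ e : IFun 𝓜 𝓜.N (El 𝓜.E A), ∀ x, ∃ n, e n = x := by
  classical
  obtain ⟨w, hw, f, hf, hinj⟩ := hA
  rw [isOmega_iff] at hw
  subst hw
  rw [fun1_iff] at hf
  have h1 : ∀ n : 𝓜.N, ∃ x : El 𝓜.E A, f x = jn n ∨ ((¬ ∃ x, f x = jn n) ∧ x = x₀) := by
    intro n
    by_cases h : ∃ x, f x = jn n
    · obtain ⟨x, hx⟩ := h
      exact ⟨x, Or.inl hx⟩
    · exact ⟨x₀, Or.inr ⟨h, rfl⟩⟩
  choose e he using h1
  have hed : 𝓜.Dfn e := by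
    refine Dfn.of_graph (s := fun (n : 𝓜.N) (x : El 𝓜.E A) => f x = jn n ∨
      ((¬ ∃ x, f x = jn n) ∧ x = x₀)) (by fun_prop) fun n x => ⟨fun h => ?_, ?_⟩
    · rcases h with h | ⟨h, h'⟩
      · rcases he n with h2 | ⟨h2, -⟩
        · exact hinj (h2.trans h.symm)
        · exact absurd ⟨x, h⟩ h2
      · rcases he n with h2 | ⟨-, h2⟩
        · exact absurd ⟨_, h2⟩ h
        · rw [h2, h']
    · rintro rfl
      exact he n
  refine ⟨⟨e, hed⟩, fun x => ⟨nj 𝓜 (f x), ?_⟩⟩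
  show e (nj 𝓜 (f x)) = x
  rcases he (nj 𝓜 (f x)) with h2 | ⟨h2, -⟩
  · rw [jn_nj] at h2
    exact hinj h2
  · exact absurd ⟨x, (jn_nj _).symm⟩ h2

end Pool.Agent.Lib.MP_0baed1_lc
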