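import Pool.Agent.Lib.MP_0baed1_lc.Base

/-!
# Countable choice from dependent choices
-/

namespace Pool.Agent.Lib.MP_0baed1_lc

open Pool.Agent.Lib.MP_c7a422_lc.Z Pool.Agent.Lib.MP_c7a422_lc.Z.Ctx

universe u v w

theorem tcc_of_tdc {𝓜 : Ctx.{u}} (h : TDC 𝓜) : TCC 𝓜 := by
  classical
  intro α _ s hs
  obtain ⟨a₀, -⟩ := hs 0
  let good : ISet 𝓜 (𝓜.N × IFun 𝓜 𝓜.N α) := ⟨fun p => ∀ k, k < p.1 → s (k, p.2 k), by
    simp only [al_iff, imp_iff_not_or]; fun_prop⟩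
  have hgood : ∀ p, good p ↔ ∀ k, k < p.1 → s (k, p.2 k) := fun p => Iff.rfl
  obtain ⟨F, hF⟩ := h (𝓜.N × IFun 𝓜 𝓜.N α)
    ⟨fun q => good q.2 ∧ (good q.1 → q.2.1 = q.1.1 + 1), by
      simp only [imp_iff_not_or]; fun_prop⟩ ⟨(0, ⟨fun _ => a₀, by fun_prop⟩)⟩ (by
      rintro ⟨n, f⟩
      by_cases hp : good (n, f)
      · obtain ⟨a, ha⟩ := hs n
        refine ⟨(n + 1, ⟨fun k => if k = n then a else f k, by fun_prop⟩), ?_, fun _ => rfl⟩
        show good _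
        rw [hgood]
        intro k hk
        show s (k, if k = n then a else f k)
        split_ifs with h1
        · rw [h1]; exact ha
        · exact (hgood _).1 hp k (lt_of_le_of_ne (N_lt_add_one_iff.1 hk) h1)
      · refine ⟨(0, ⟨fun _ => a₀, by fun_prop⟩), ?_, fun hp' => absurd hp' hp⟩
        show good _
        rw [hgood]
        intro k hk
        exact absurd (N_nonneg k) (not_le.2 hk))
  have hF1 : ∀ n, good (F (n + 1)) := fun n => (hF n).1
  have hF2 : ∀ n, (F (n + 1 + 1)).1 = (F (n + 1)).1 + 1 := fun n => (hF (n + 1)).2 (hF1 n)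
  have hF3 : ∀ n, n ≤ (F (n + 1)).1 := by
    refine ind (P := fun n => n ≤ (F (n + 1)).1) (by fun_prop) (N_nonneg _) fun n ih => ?_
    rw [hF2]
    exact add_le_add_left ih 1
  refine ⟨⟨fun j => (F (j + 1 + 1)).2 j, by fun_prop⟩, fun j => ?_⟩
  refine (hgood _).1 (hF1 (j + 1)) j ?_
  exact lt_of_lt_of_le (by simp) (hF3 (j + 1))

end Pool.Agent.Lib.MP_0baed1_lc
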