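import Pool.Agent.Lib.MP_0baed1_lc.Base

/-!
# Continuous images of separable complete metric spaces are analytic
-/

namespace Pool.Agent.Lib.MP_0baed1_lc

open Pool.Agent.Lib.MP_c7a422_lc.Z Pool.Agent.Lib.MP_c7a422_lc.Z.Ctx

universe u v w

variable {𝓜 : Ctx.{u}} {Y : Type u} [Rep 𝓜 Y]

/-- `z` is a sequence of indices of points that converge to `y` -/
def QQ (ρ : IFun 𝓜 (Y × Y) 𝓜.R) (e : IFun 𝓜 𝓜.N Y) (z : Bai 𝓜) (y : Y) : Prop :=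
  ∀ k : 𝓜.N, ρ (e (z k), y) ≤ 1 / ((k : 𝓜.R) + 1)

@[fun_prop]
theorem dfn_QQ {γ : Type*} [Rep 𝓜 γ] {ρ : γ → IFun 𝓜 (Y × Y) 𝓜.R} {e : γ → IFun 𝓜 𝓜.N Y}
    {z : γ → Bai 𝓜} {y : γ → Y} (hρ : 𝓜.Dfn ρ) (he : 𝓜.Dfn e) (hz : 𝓜.Dfn z) (hy : 𝓜.Dfn y) :
    𝓜.Dfn (fun c => QQ (ρ c) (e c) (z c) (y c)) := by
  unfold QQ
  simp only [al_iff]
  fun_prop

theorem exists_section (hCC : TCC 𝓜) (ρ : IFun 𝓜 (Y × Y) 𝓜.R) (hρ : MetOn univ ρ)
    (hc : Complete univ ρ) (e : IFun 𝓜 𝓜.N Y) (he : ∀ y, ∀ ε > 0, ∃ n, ρ (y, e n) < ε)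
    (ι : IFun 𝓜 Y (Bai 𝓜))
    (hι : ∀ y n, ∃ ε > 0, ∀ z, ρ (y, z) < ε → ∀ k < n, ι z k = ι y k) :
    ∃ c : Bai 𝓜, ∀ x, (∃ y, ι y = x) ↔ InU c x := by
  classical
  have hsymm : ∀ y z, ρ (y, z) = ρ (z, y) := fun y z => hρ.symm y z trivial trivial
  have htri : ∀ x y z, ρ (x, z) ≤ ρ (x, y) + ρ (y, z) := fun x y z =>
    hρ.tri x y z trivial trivial trivial
  let A : ISet 𝓜 𝓜.N := ⟨fun m => ∃ (n : 𝓜.N) (z : Bai 𝓜) (y : Y),
    m = pairN n (pairN (cd z n) (cd (ι y) n)) ∧ QQ ρ e z y, by fun_prop⟩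
  refine ⟨⟨fun m => if A m then 0 else 1, by fun_prop⟩, fun x => ⟨?_, ?_⟩⟩
  · rintro ⟨y, rfl⟩
    obtain ⟨z, hz⟩ := hCC 𝓜.N ⟨fun q => ρ (e q.2, y) ≤ 1 / ((q.1 : 𝓜.R) + 1), by fun_prop⟩ (by
      intro k
      have hk : (0 : 𝓜.R) < 1 / ((k : 𝓜.R) + 1) := by
        have := toR_nonneg k
        positivity
      obtain ⟨n, hn⟩ := he y _ hk
      refine ⟨n, ?_⟩
      show ρ (e n, y) ≤ 1 / ((k : 𝓜.R) + 1)
      rw [hsymm]
      exact hn.le)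
    refine ⟨z, fun n => ?_⟩
    show (if A (pairN n (pairN (cd z n) (cd (ι y) n))) then (0 : 𝓜.N) else 1) = 0
    exact if_pos ⟨n, z, y, rfl, hz⟩
  · rintro ⟨z, hz⟩
    have h1 : ∀ n, ∃ y, ∃ z' : Bai 𝓜, cd z n = cd z' n ∧ cd x n = cd (ι y) n ∧ QQ ρ e z' y := by
      intro n
      have h2 : A (pairN n (pairN (cd z n) (cd x n))) := by
        by_contra hcon
        have h3 := hz n
        change (if A (pairN n (pairN (cd z n) (cd x n))) then (0 : 𝓜.N) else 1) = 0 at h3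
        rw [if_neg hcon] at h3
        have h4 := N_add_one_ne_zero (0 : 𝓜.N)
        rw [zero_add] at h4
        exact h4 h3
      obtain ⟨n', z', y, h3, h4⟩ := h2
      obtain ⟨rfl, h5⟩ := pairN_inj h3
      obtain ⟨h6, h7⟩ := pairN_inj h5
      exact ⟨y, z', h6, h7, h4⟩
    obtain ⟨f, hf⟩ := hCC Y ⟨fun q => ∃ z' : Bai 𝓜, cd z q.1 = cd z' q.1 ∧
      cd x q.1 = cd (ι q.2) q.1 ∧ QQ ρ e z' q.2, by fun_prop⟩ h1
    have hf1 : ∀ n k : 𝓜.N, k < n → ρ (e (z k), f n) ≤ 1 / ((k : 𝓜.R) + 1) := by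
      intro n k hk
      obtain ⟨z', h2, -, h4⟩ := hf n
      have h5 := h4 k
      rw [← cd_inj h2 k hk] at h5
      exact h5
    have hf2 : ∀ n k : 𝓜.N, k < n → ι (f n) k = x k := by
      intro n k hk
      obtain ⟨z', -, h3, -⟩ := hf n
      exact (cd_inj h3 k hk).symm
    obtain ⟨y, -, hy⟩ := hc f (fun _ => trivial) (fun ε hε => by
      obtain ⟨k, hk⟩ := exists_one_div_lt (half_pos hε)
      refine ⟨k + 1, fun m n hm hn => ?_⟩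
      have h2 := hf1 m k (lt_of_lt_of_le (by simp) hm)
      have h3 := hf1 n k (lt_of_lt_of_le (by simp) hn)
      have h4 := htri (f m) (e (z k)) (f n)
      have h5 := hsymm (f m) (e (z k))
      linarith)
    refine ⟨y, ?_⟩
    ext n
    obtain ⟨ε, hε, h2⟩ := hι y (n + 1)
    obtain ⟨m, hm⟩ := hy (ε / 2) (half_pos hε)
    have h3 := hm (max m (n + 1)) (le_max_left _ _)
    have h4 := h2 (f (max m (n + 1))) (by rw [hsymm]; linarith) n (by simp)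
    rw [← h4]
    exact hf2 _ n (lt_of_lt_of_le (by simp) (le_max_right _ _))

end Pool.Agent.Lib.MP_0baed1_lc
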