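import Pool.Agent.Lib.MP_0baed1_lc.Base

/-!
# Determinacy implies that well-orderable sets of reals are countable

We use the following degrees: `y` lies below `x` if `y` belongs to every internal set of reals that
contains `x` and is closed under columns and under playing against (coded) strategies.
-/

namespace Pool.Agent.Lib.MP_0baed1_lc

open Pool.Agent.Lib.MP_c7a422_lc.Z Pool.Agent.Lib.MP_c7a422_lc.Z.Ctx

universe u v w

variable {𝓜 : Ctx.{u}}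

/-! ### Operations -/

/-- the column with index `n` -/
noncomputable def col (n : 𝓜.N) (x : Bai 𝓜) : Bai 𝓜 := ⟨fun i => x (pairN n i), by fun_prop⟩

open Classical in
/-- the real with the column `x` for the index `0` and the column `y` for all other indices -/
noncomputable def join (x y : Bai 𝓜) : Bai 𝓜 :=
  ⟨fun m => if p1 𝓜 m = 0 then x (p2 𝓜 m) else y (p2 𝓜 m), by fun_prop⟩

open Classical in
/-- player I uses the strategy `s` against `y` -/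
noncomputable def playI (s y : Bai 𝓜) : Bai 𝓜 :=
  ⟨fun m => if p1 𝓜 m = 0 then s (pairN (p2 𝓜 m) (cd y (p2 𝓜 m))) else y (p2 𝓜 m), by fun_prop⟩

open Classical in
/-- player II uses the strategy `s` against `x` -/
noncomputable def playII (s x : Bai 𝓜) : Bai 𝓜 :=
  ⟨fun m => if p1 𝓜 m = 0 then x (p2 𝓜 m) else s (pairN (p2 𝓜 m) (cd x (p2 𝓜 m + 1))), by
    fun_prop⟩

@[fun_prop]
theorem dfn_col {γ : Type*} [Rep 𝓜 γ] {n : γ → 𝓜.N} {x : γ → Bai 𝓜} (hn : 𝓜.Dfn n)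
    (hx : 𝓜.Dfn x) : 𝓜.Dfn (fun c => col (n c) (x c)) := by
  unfold col
  fun_prop

@[fun_prop]
theorem dfn_join {γ : Type*} [Rep 𝓜 γ] {x y : γ → Bai 𝓜} (hx : 𝓜.Dfn x) (hy : 𝓜.Dfn y) :
    𝓜.Dfn (fun c => join (x c) (y c)) := by
  unfold join
  fun_prop

@[fun_prop]
theorem dfn_playI {γ : Type*} [Rep 𝓜 γ] {x y : γ → Bai 𝓜} (hx : 𝓜.Dfn x) (hy : 𝓜.Dfn y) :
    𝓜.Dfn (fun c => playI (x c) (y c)) := by
  unfold playI
  fun_prop

@[fun_prop]
theorem dfn_playII {γ : Type*} [Rep 𝓜 γ] {x y : γ → Bai 𝓜} (hx : 𝓜.Dfn x) (hy : 𝓜.Dfn y) :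
    𝓜.Dfn (fun c => playII (x c) (y c)) := by
  unfold playII
  fun_prop

theorem col_apply (n i : 𝓜.N) (x : Bai 𝓜) : col n x i = x (pairN n i) := rfl

theorem join_apply (x y : Bai 𝓜) (a b : 𝓜.N) [Decidable (a = 0)] :
    join x y (pairN a b) = if a = 0 then x b else y b := by
  show (if p1 𝓜 (pairN a b) = 0 then x (p2 𝓜 (pairN a b)) else y (p2 𝓜 (pairN a b))) = _
  rw [p1_pairN, p2_pairN]
  congr

theorem one_ne_zero_N : (1 : 𝓜.N) ≠ 0 := by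
  have := N_add_one_ne_zero (0 : 𝓜.N)
  rwa [zero_add] at this

theorem col_zero_join (x y : Bai 𝓜) : col 0 (join x y) = x := by
  classical
  ext i
  rw [col_apply, join_apply, if_pos rfl]

theorem col_one_join (x y : Bai 𝓜) : col 1 (join x y) = y := by
  classical
  ext i
  rw [col_apply, join_apply, if_neg one_ne_zero_N]

theorem playI_eq {s y x : Bai 𝓜} (h : ∀ n, s (pairN n (cd y n)) = x n) :
    playI s y = join x y := by
  classical
  ext m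
  show (if p1 𝓜 m = 0 then s (pairN (p2 𝓜 m) (cd y (p2 𝓜 m))) else y (p2 𝓜 m)) =
    if p1 𝓜 m = 0 then x (p2 𝓜 m) else y (p2 𝓜 m)
  rw [h]

theorem playII_eq {s y x : Bai 𝓜} (h : ∀ n, s (pairN n (cd x (n + 1))) = y n) :
    playII s x = join x y := by
  classical
  ext m
  show (if p1 𝓜 m = 0 then x (p2 𝓜 m) else s (pairN (p2 𝓜 m) (cd x (p2 𝓜 m + 1)))) =
    if p1 𝓜 m = 0 then x (p2 𝓜 m) else y (p2 𝓜 m)
  rw [h]

/-! ### Degrees -/

/-- `K` is closed under the operations -/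
def ClosedK (K : ISet 𝓜 (Bai 𝓜)) : Prop :=
  (∀ x n, K x → K (col n x)) ∧ (∀ x y, K x → K y → K (playI x y)) ∧
    ∀ x y, K x → K y → K (playII x y)

@[fun_prop]
theorem dfn_closedK {γ : Type*} [Rep 𝓜 γ] {K : γ → ISet 𝓜 (Bai 𝓜)} (hK : 𝓜.Dfn K) :
    𝓜.Dfn (fun c => ClosedK (K c)) := by
  unfold ClosedK
  simp only [al_iff, imp_iff_not_or]
  fun_prop

/-- `y` lies below `x` -/
def Le (y x : Bai 𝓜) : Prop := ∀ K : ISet 𝓜 (Bai 𝓜), ClosedK K → K x → K y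

@[fun_prop]
theorem dfn_Le {γ : Type*} [Rep 𝓜 γ] {y x : γ → Bai 𝓜} (hy : 𝓜.Dfn y) (hx : 𝓜.Dfn x) :
    𝓜.Dfn (fun c => Le (y c) (x c)) := by
  unfold Le
  simp only [al_iff, imp_iff_not_or]
  fun_prop

theorem Le.refl (x : Bai 𝓜) : Le x x := fun _ _ h => h

theorem Le.trans {x y z : Bai 𝓜} (h1 : Le x y) (h2 : Le y z) : Le x z :=
  fun K hK hz => h1 K hK (h2 K hK hz)

theorem le_col (n : 𝓜.N) (x : Bai 𝓜) : Le (col n x) x := fun _ hK hx => hK.1 x n hx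

theorem le_playI {x y z : Bai 𝓜} (h1 : Le x z) (h2 : Le y z) : Le (playI x y) z :=
  fun K hK hz => hK.2.1 x y (h1 K hK hz) (h2 K hK hz)

theorem le_playII {x y z : Bai 𝓜} (h1 : Le x z) (h2 : Le y z) : Le (playII x y) z :=
  fun K hK hz => hK.2.2 x y (h1 K hK hz) (h2 K hK hz)

theorem le_join_left (x y : Bai 𝓜) : Le x (join x y) := by
  have := le_col 0 (join x y)
  rwa [col_zero_join] at this

theorem le_join_right (x y : Bai 𝓜) : Le y (join x y) := by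
  have := le_col 1 (join x y)
  rwa [col_one_join] at this

/-- countably many reals have an upper bound -/
theorem exists_bound (b : IFun 𝓜 𝓜.N (Bai 𝓜)) : ∃ B, ∀ n, Le (b n) B := by
  refine ⟨⟨fun m => b (p1 𝓜 m) (p2 𝓜 m), by fun_prop⟩, fun n => ?_⟩
  have h := le_col n (⟨fun m => b (p1 𝓜 m) (p2 𝓜 m), by fun_prop⟩ : Bai 𝓜)
  have e : col n (⟨fun m => b (p1 𝓜 m) (p2 𝓜 m), by fun_prop⟩ : Bai 𝓜) = b n := by
    ext i
    show b (p1 𝓜 (pairN n i)) (p2 𝓜 (pairN n i)) = b n i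
    rw [p1_pairN, p2_pairN]
  rwa [e] at h

/-! ### Every cone below is countable -/

open Classical in
/-- all operations in one -/
noncomputable def opK (q : 𝓜.N) (u v : Bai 𝓜) : Bai 𝓜 :=
  if p1 𝓜 q = 0 then u else if p1 𝓜 q = 1 then playI u v else if p1 𝓜 q = 1 + 1 then playII u v
  else col (p2 𝓜 q) u

@[fun_prop]
theorem dfn_opK {γ : Type*} [Rep 𝓜 γ] {q : γ → 𝓜.N} {x y : γ → Bai 𝓜} (hq : 𝓜.Dfn q)
    (hx : 𝓜.Dfn x) (hy : 𝓜.Dfn y) : 𝓜.Dfn (fun c => opK (q c) (x c) (y c)) := by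
  unfold opK
  fun_prop

/-- the enumerations of the finite stages -/
noncomputable def stg (x : Bai 𝓜) (n : 𝓜.N) : IFun 𝓜 𝓜.N (Bai 𝓜) :=
  nrec ⟨fun _ => x, by fun_prop⟩ ⟨fun p : 𝓜.N × IFun 𝓜 𝓜.N (Bai 𝓜) =>
    ⟨fun m => opK (p1 𝓜 m) (p.2 (p1 𝓜 (p2 𝓜 m))) (p.2 (p2 𝓜 (p2 𝓜 m))), by fun_prop⟩,
    by fun_prop⟩ n

@[fun_prop]
theorem dfn_stg {γ : Type*} [Rep 𝓜 γ] {x : γ → Bai 𝓜} {n : γ → 𝓜.N} (hx : 𝓜.Dfn x)
    (hn : 𝓜.Dfn n) : 𝓜.Dfn (fun c => stg (x c) (n c)) := by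
  unfold stg
  fun_prop

theorem stg_zero (x : Bai 𝓜) (m : 𝓜.N) : stg x 0 m = x := by
  unfold stg
  rw [nrec_zero]
  rfl

theorem stg_succ (x : Bai 𝓜) (n q i j : 𝓜.N) :
    stg x (n + 1) (pairN q (pairN i j)) = opK q (stg x n i) (stg x n j) := by
  unfold stg
  rw [nrec_succ]
  show opK (p1 𝓜 (pairN q (pairN i j))) _ _ = _
  simp only [p1_pairN, p2_pairN]

theorem stg_mono (x : Bai 𝓜) (n i : 𝓜.N) : ∀ k : 𝓜.N, ∃ j, stg x (n + k) j = stg x n i := by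
  refine ind (P := fun k => ∃ j, stg x (n + k) j = stg x n i) (by fun_prop) ⟨i, by rw [add_zero]⟩
    fun k ih => ?_
  obtain ⟨j, hj⟩ := ih
  refine ⟨pairN (pairN 0 0) (pairN j j), ?_⟩
  rw [← add_assoc, stg_succ, ← hj]
  unfold opK
  rw [p1_pairN, if_pos rfl]

theorem exists_add_of_le {m n : 𝓜.N} (h : m ≤ n) : ∃ k, n = m + k := by
  revert h
  refine ind (P := fun n => m ≤ n → ∃ k, n = m + k) (by simp only [imp_iff_not_or]; fun_prop)
    (fun h => ⟨0, by rw [add_zero]; exact le_antisymm (N_nonneg m) h⟩) (fun n ih h => ?_) n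
  rcases h.lt_or_eq with h1 | h1
  · obtain ⟨k, hk⟩ := ih (N_lt_add_one_iff.1 h1)
    exact ⟨k + 1, by rw [hk]; ring⟩
  · exact ⟨0, by rw [h1, add_zero]⟩

theorem stg_common (x : Bai 𝓜) (n i n' i' : 𝓜.N) :
    ∃ m j j', stg x m j = stg x n i ∧ stg x m j' = stg x n' i' := by
  rcases le_total n n' with h | h
  · obtain ⟨k, rfl⟩ := exists_add_of_le h
    obtain ⟨j, hj⟩ := stg_mono x n i k
    exact ⟨_, j, i', hj, rfl⟩
  · obtain ⟨k, rfl⟩ := exists_add_of_le h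
    obtain ⟨j, hj⟩ := stg_mono x n' i' k
    exact ⟨_, i, j, rfl, hj⟩

theorem tcount_le (x : Bai 𝓜) : ∃ e : IFun 𝓜 𝓜.N (Bai 𝓜), ∀ y, Le y x → ∃ n, e n = y := by
  have h2 : (1 : 𝓜.N) + 1 ≠ 0 := N_add_one_ne_zero 1
  have h21 : (1 : 𝓜.N) + 1 ≠ 1 := fun h => one_ne_zero_N (N_add_one_inj (by rw [zero_add]; exact h))
  let K : ISet 𝓜 (Bai 𝓜) := ⟨fun y => ∃ n m, stg x n m = y, by fun_prop⟩
  have hK : ClosedK K := by
    refine ⟨?_, ?_, ?_⟩
    · rintro y k ⟨n, m, rfl⟩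
      refine ⟨n + 1, pairN (pairN (1 + 1 + 1) k) (pairN m m), ?_⟩
      rw [stg_succ]
      unfold opK
      rw [p1_pairN, p2_pairN, if_neg (N_add_one_ne_zero _), if_neg, if_neg]
      · intro h
        exact h21 (N_add_one_inj h)
      · intro h
        exact h2 (N_add_one_inj (h.trans (zero_add 1).symm))
    · rintro y z ⟨n, m, rfl⟩ ⟨n', m', rfl⟩
      obtain ⟨l, j, j', h, h'⟩ := stg_common x n m n' m'
      refine ⟨l + 1, pairN (pairN 1 0) (pairN j j'), ?_⟩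
      rw [stg_succ, h, h']
      unfold opK
      rw [p1_pairN, if_neg one_ne_zero_N, if_pos rfl]
    · rintro y z ⟨n, m, rfl⟩ ⟨n', m', rfl⟩
      obtain ⟨l, j, j', h, h'⟩ := stg_common x n m n' m'
      refine ⟨l + 1, pairN (pairN (1 + 1) 0) (pairN j j'), ?_⟩
      rw [stg_succ, h, h']
      unfold opK
      rw [p1_pairN, if_neg h2, if_neg h21, if_pos rfl]
  refine ⟨⟨fun m => stg x (p1 𝓜 m) (p2 𝓜 m), by fun_prop⟩, fun y hy => ?_⟩
  obtain ⟨n, m, h⟩ := hy K hK ⟨0, 0, stg_zero x 0⟩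
  refine ⟨pairN n m, ?_⟩
  show stg x (p1 𝓜 (pairN n m)) (p2 𝓜 (pairN n m)) = y
  rw [p1_pairN, p2_pairN]
  exact h

/-! ### Codes of strategies -/

/-- a function for which `F y n` depends only on the initial segment of `y` of length `l n` -/
theorem exists_code (F : IFun 𝓜 (Bai 𝓜) (Bai 𝓜)) (l : Bai 𝓜)
    (hF : ∀ y y' : Bai 𝓜, ∀ n, (∀ k < l n, y k = y' k) → F y n = F y' n) :
    ∃ s : Bai 𝓜, ∀ y n, s (pairN n (cd y (l n))) = F y n := by
  classical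
  have h1 : ∀ m : 𝓜.N, ∃ a : 𝓜.N, (∃ (y : Bai 𝓜) (n : 𝓜.N), m = pairN n (cd y (l n)) ∧
      a = F y n) ∨ ((¬ ∃ (y : Bai 𝓜) (n : 𝓜.N), m = pairN n (cd y (l n))) ∧ a = 0) := by
    intro m
    by_cases h : ∃ (y : Bai 𝓜) (n : 𝓜.N), m = pairN n (cd y (l n))
    · obtain ⟨y, n, h⟩ := h
      exact ⟨F y n, Or.inl ⟨y, n, h, rfl⟩⟩
    · exact ⟨0, Or.inr ⟨h, rfl⟩⟩
  choose s hs using h1
  have hu : ∀ (y : Bai 𝓜) (n : 𝓜.N) (y' : Bai 𝓜) (n' : 𝓜.N),
      pairN n (cd y (l n)) = pairN n' (cd y' (l n')) → F y n = F y' n' := by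
    intro y n y' n' h
    obtain ⟨rfl, h2⟩ := pairN_inj h
    exact hF y y' n (cd_inj h2)
  have hsd : 𝓜.Dfn s := by
    refine Dfn.of_graph (s := fun (m a : 𝓜.N) => (∃ (y : Bai 𝓜) (n : 𝓜.N),
      m = pairN n (cd y (l n)) ∧ a = F y n) ∨
      ((¬ ∃ (y : Bai 𝓜) (n : 𝓜.N), m = pairN n (cd y (l n))) ∧ a = 0)) (by fun_prop)
      fun m a => ⟨fun h => ?_, ?_⟩
    · rcases h with ⟨y, n, h, h'⟩ | ⟨h, h'⟩
      · rcases hs m with ⟨y', n', h2, h2'⟩ | ⟨h2, -⟩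
        · rw [h2', h']
          exact hu _ _ _ _ (h2.symm.trans h)
        · exact absurd ⟨y, n, h⟩ h2
      · rcases hs m with ⟨y', n', h2, -⟩ | ⟨-, h2⟩
        · exact absurd ⟨y', n', h2⟩ h
        · rw [h2, h']
    · rintro rfl
      exact hs m
  refine ⟨⟨s, hsd⟩, fun y n => ?_⟩
  show s (pairN n (cd y (l n))) = F y n
  rcases hs (pairN n (cd y (l n))) with ⟨y', n', h2, h2'⟩ | ⟨h2, -⟩
  · rw [h2']
    exact (hu _ _ _ _ h2).symm
  · exact absurd ⟨y, n, rfl⟩ h2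

/-! ### The cone theorem -/

theorem cone (hAD : TDet 𝓜 𝓜.N) (A : ISet 𝓜 (Bai 𝓜))
    (hA : ∀ x y, Le x y → Le y x → A x → A y) :
    (∃ b, ∀ x, Le b x → A x) ∨ ∃ b, ∀ x, Le b x → ¬ A x := by
  rcases hAD ⟨fun q => A (join q.1 q.2), by fun_prop⟩ with ⟨F, hF, hF'⟩ | ⟨F, hF, hF'⟩
  · left
    obtain ⟨s, hs⟩ := exists_code F ⟨fun n => n, by fun_prop⟩ (fun y y' n h => hF y y' n h)
    refine ⟨s, fun y hy => ?_⟩
    have e : playI s y = join (F y) y := playI_eq fun n => hs y n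
    have h1 : Le (join (F y) y) y := by
      rw [← e]
      exact le_playI hy (Le.refl y)
    exact hA _ _ h1 (le_join_right _ _) (hF' y)
  · right
    obtain ⟨s, hs⟩ := exists_code F ⟨fun n => n + 1, by fun_prop⟩
      (fun y y' n h => hF y y' n fun k hk => h k (N_lt_add_one_iff.2 hk))
    refine ⟨s, fun x hx hAx => ?_⟩
    have e : playII s x = join x (F x) := playII_eq fun n => hs x n
    have h1 : Le (join x (F x)) x := by
      rw [← e]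
      exact le_playII hx (Le.refl x)
    exact hF' x (hA _ _ (le_join_left _ _) h1 hAx)

/-! ### Well-orderable sets of reals are countable -/

/-- determinacy and countable choice imply that well-orderable sets of reals are countable -/
theorem tcount_of_wo (hAD : TDet 𝓜 𝓜.N) (hCC : TCC 𝓜) {D : ISet 𝓜 (Bai 𝓜)} (hD : WOon D) :
    TCount D := by
  by_contra hcon
  have hne : ∀ x : Bai 𝓜, ∃ d, D d ∧ ¬ Le d x := by
    intro x
    by_contra h
    push Not at h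
    obtain ⟨e, he⟩ := tcount_le x
    exact hcon ⟨e, fun y hy => he y (h y hy)⟩
  obtain ⟨r, hr⟩ := hD
  obtain ⟨σ, hσ⟩ := hr.sel ⟨fun _ => 0, by fun_prop⟩
  let T : IFun 𝓜 (Bai 𝓜) (ISet 𝓜 (Bai 𝓜)) := ⟨fun x => ⟨fun d => ¬ Le d x, by fun_prop⟩, by
    fun_prop⟩
  let φ : IFun 𝓜 (Bai 𝓜) (Bai 𝓜) := ⟨fun x => σ (T x), by fun_prop⟩
  have hφ : ∀ x, ¬ Le (φ x) x := by
    intro x
    obtain ⟨d, hd, hd'⟩ := hne x
    exact (hσ (T x) ⟨d, hd', hd⟩).1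
  have hinv : ∀ x y, Le x y → Le y x → φ x = φ y := by
    intro x y hxy hyx
    have e : T x = T y := by
      ext d
      exact ⟨fun h h' => h (h'.trans hyx), fun h h' => h (h'.trans hxy)⟩
    show σ (T x) = σ (T y)
    rw [e]
  have hk : ∀ n : 𝓜.N, ∃ q : 𝓜.N × Bai 𝓜, ∀ x, Le q.2 x → φ x n = q.1 := by
    intro n
    by_contra h
    push Not at h
    have h1 : ∀ k : 𝓜.N, ∃ b : Bai 𝓜, ∀ x, Le b x → ¬ φ x n = k := by
      intro k
      rcases cone hAD ⟨fun x => φ x n = k, by fun_prop⟩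
        (fun x y hxy hyx hx => by
          show φ y n = k
          rw [← hinv x y hxy hyx]
          exact hx) with ⟨b, hb⟩ | ⟨b, hb⟩
      · obtain ⟨x, hx, hx'⟩ := h (k, b)
        exact absurd (hb x hx) hx'
      · exact ⟨b, hb⟩
    obtain ⟨f, hf⟩ := hCC (Bai 𝓜) ⟨fun q => ∀ x, Le q.2 x → ¬ φ x n = q.1, by
      simp only [al_iff, imp_iff_not_or]; fun_prop⟩ h1
    obtain ⟨B, hB⟩ := exists_bound f
    exact hf (φ B n) B (hB _) rfl
  obtain ⟨f, hf⟩ := hCC (𝓜.N × Bai 𝓜) ⟨fun q => ∀ x, Le q.2.2 x → φ x q.1 = q.2.1, by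
    simp only [al_iff, imp_iff_not_or]; fun_prop⟩ hk
  obtain ⟨B, hB⟩ := exists_bound (⟨fun n => (f n).2, by fun_prop⟩ : IFun 𝓜 𝓜.N (Bai 𝓜))
  let d : Bai 𝓜 := ⟨fun n => (f n).1, by fun_prop⟩
  have hd : φ (join d B) = d := by
    ext n
    exact hf n (join d B) ((hB n).trans (le_join_right _ _))
  have h1 := hφ (join d B)
  rw [hd] at h1
  exact h1 (le_join_left _ _)

end Pool.Agent.Lib.MP_0baed1_lc
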