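import Pool.Agent.Lib.MP_c7a422_lc.Z.Defs

/-!
# Finer completely metrizable topologies in models of ZF + DC + AD

A model is a type `M` with a binary relation `E`.  All notions below are the notions of the model:
the sets, functions, relations, games, metrics, covers and families that are considered are elements
of `M`.  Nothing is assumed about `M` beyond the axioms (the natural numbers of the model may be
nonstandard).

The following notions are those of `Pool.Agent.Lib.MP_c7a422_lc.Z.Defs`: `IsZF E` (`(M, E)` is a
model of ZF), `IsPair` (ordered pairs), `El E a` (the type of the elements of the set `a`), `Fun1`,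
`Fun2`, `Rel2` (the function or relation is an element of the model), `Reals E` (a complete ordered
field of the model), `IsMetric`, `IsNat` (natural numbers of the model), `IsOpenFor` (the open sets
of a metric).
-/

namespace Pool.Agent.Lib.MP_0baed1_lc

open Pool.Agent.Lib.MP_c7a422_lc.Z

universe u

variable {M : Type u} (E : M → M → Prop)

/-! ### Natural numbers, countable sets, `ω₁` -/

/-- `w` is the set of the natural numbers of the model. -/
def IsOmega (w : M) : Prop := ∀ n, E n w ↔ IsNat E n

/-- `m` is the successor `n ∪ {n}` of `n`. -/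
def IsSucc (n m : M) : Prop := ∀ z, E z m ↔ E z n ∨ z = n

/-- `n ≤ m` for natural numbers. -/
def LeNat (n m : M) : Prop := E n m ∨ n = m

/-- The set `A` is countable in the model: some function of the model maps it injectively to the
set of natural numbers. -/
def IsCountable (A : M) : Prop :=
  ∃ w, IsOmega E w ∧ ∃ f : El E A → El E w, Fun1 E f ∧ Function.Injective f

/-- `a` is an ordinal: a transitive set that is linearly ordered by the membership relation (which
is well-founded by the axiom of foundation). -/
def IsOrdinal (a : M) : Prop :=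
  (∀ x y, E x a → E y x → E y a) ∧ ∀ x y, E x a → E y a → E x y ∨ x = y ∨ E y x

/-- `W` is `ω₁`, the set of all countable ordinals. -/
def IsOmegaOne (W : M) : Prop := ∀ a, E a W ↔ IsOrdinal E a ∧ IsCountable E a

/-- The set `A` has at most `ℵ₁` elements: some function of the model maps it injectively
to `ω₁`. -/
def CardLeAlephOne (A : M) : Prop :=
  ∃ W, IsOmegaOne E W ∧ ∃ f : El E A → El E W, Fun1 E f ∧ Function.Injective f

/-! ### Dependent choices, determinacy -/

/-- The axiom of dependent choices: if `r` is a relation on a nonempty set `X` and every `x` has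
some `y` with `r x y`, then there is a sequence `f` with `r (f n) (f (n + 1))` for all `n`. -/
def DC : Prop := ∀ (X w : M) (r : El E X → El E X → Prop), IsOmega E w → Rel2 E r →
  (∃ x, E x X) → (∀ x, ∃ y, r x y) →
  ∃ f : El E w → El E X, Fun1 E f ∧ ∀ n m, IsSucc E n.1 m.1 → r (f n) (f m)

/-- `Q` is the set of all infinite sequences of elements of `B` in the model, that is of all
functions from `w` to `B`. -/
def IsSeqSet (w B Q : M) : Prop :=
  ∀ q, E q Q ↔ ∃ f : El E w → El E B, ∀ z, E z q ↔ ∃ n, IsPair E z n.1 (f n).1

/-- The term of the sequence `q` with the index `n` is `b`. -/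
def HasTerm (q n b : M) : Prop := ∃ z, E z q ∧ IsPair E z n b

/-- The sequences `q` and `q'` have the same terms for all indices less than `n`. -/
def Agree (q q' n : M) : Prop := ∀ k b, E k n → (HasTerm E q k b ↔ HasTerm E q' k b)

/-- In a game of length `ω` the players I and II choose alternately `x 0, y 0, x 1, y 1, ...`.
A strategy of player I is a function `F` of the model that gives his moves `x = F y`: the move
`x n` depends on `y 0, ..., y (n - 1)` only. -/
def IsStrategyI (w : M) {Q : M} (F : El E Q → El E Q) : Prop :=
  Fun1 E F ∧ ∀ (y y' : El E Q) (n : El E w), Agree E y.1 y'.1 n.1 →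
    ∀ b, HasTerm E (F y).1 n.1 b ↔ HasTerm E (F y').1 n.1 b

/-- A strategy of player II is a function `F` of the model that gives his moves `y = F x`: the move
`y n` depends on `x 0, ..., x n` only. -/
def IsStrategyII (w : M) {Q : M} (F : El E Q → El E Q) : Prop :=
  Fun1 E F ∧ ∀ (x x' : El E Q) (n m : El E w), IsSucc E n.1 m.1 → Agree E x.1 x'.1 m.1 →
    ∀ b, HasTerm E (F x).1 n.1 b ↔ HasTerm E (F x').1 n.1 b

/-- All games of length `ω` with moves in `B` are determined: for every set `A` of pairs `(x, y)`
of sequences (the plays that player I wins) one of the two players has a winning strategy. -/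
def Determined (B : M) : Prop :=
  ∀ (w Q : M) (A : El E Q → El E Q → Prop), IsOmega E w → IsSeqSet E w B Q → Rel2 E A →
    (∃ F : El E Q → El E Q, IsStrategyI E w F ∧ ∀ y, A (F y) y) ∨
      ∃ F : El E Q → El E Q, IsStrategyII E w F ∧ ∀ x, ¬ A x (F x)

/-- The axiom of determinacy AD: all games with natural numbers as moves are determined. -/
def AD : Prop := ∀ w, IsOmega E w → Determined E w

variable {E}

/-- The axiom `AD_ℝ`: all games with real numbers as moves are determined. -/
def ADR (ℛ : Reals E) : Prop := Determined E ℛ.R

/-! ### Polish spaces, Borel sets -/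

/-- The metric `d` is complete: every Cauchy sequence of the model converges. -/
def IsCompleteMetric (ℛ : Reals E) {X : M} (d : El E X → El E X → El E ℛ.R) : Prop :=
  ∀ (w : M) (s : El E w → El E X), IsOmega E w → Fun1 E s →
    (∀ ε > 0, ∃ n : El E w, ∀ k m : El E w, LeNat E n.1 k.1 → LeNat E n.1 m.1 →
      d (s k) (s m) < ε) →
    ∃ x, ∀ ε > 0, ∃ n : El E w, ∀ k : El E w, LeNat E n.1 k.1 → d (s k) x < ε

/-- `t` is a completely metrizable topology on `X`: the set of all open sets of a complete
metric. -/
def CompletelyMetrizable (ℛ : Reals E) (X t : M) : Prop :=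
  ∃ d : El E X → El E X → El E ℛ.R, IsMetric ℛ d ∧ IsCompleteMetric ℛ d ∧
    ∀ O, E O t ↔ IsOpenFor ℛ d O

variable (E)

/-- The topology `t` on `X` is separable: it has a countable dense set. -/
def IsSeparable (X t : M) : Prop :=
  ∃ D, IsCountable E D ∧ (∀ x, E x D → E x X) ∧
    ∀ O, E O t → (∃ x, E x O) → ∃ x, E x D ∧ E x O

variable {E}

/-- `X` with the topology `t` is a Polish space. -/
def IsPolish (ℛ : Reals E) (X t : M) : Prop := CompletelyMetrizable ℛ X t ∧ IsSeparable E X t

variable (E)

/-- `F` is a σ-algebra of subsets of `X`: it is closed under complements and unions of sequences of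
the model. -/
def IsSigmaAlgebra (X F : M) : Prop :=
  (∀ A, E A F → ∀ x, E x A → E x X) ∧
  (∀ A C, E A F → (∀ x, E x C ↔ E x X ∧ ¬ E x A) → E C F) ∧
  ∀ (w : M) (s : El E w → El E F) (U : M), IsOmega E w → Fun1 E s →
    (∀ x, E x U ↔ ∃ n, E x (s n).1) → E U F

/-- `A` is a Borel set of `X` with the topology `τ`: it belongs to every σ-algebra that contains
all open sets. -/
def IsBorel (X τ A : M) : Prop := ∀ F, IsSigmaAlgebra E X F → (∀ O, E O τ → E O F) → E A F

/-- `S` is a union of `ℵ₁` Borel subsets of `X`: there is a function `b` from `ω₁` to the Borel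
sets, in the model, such that `S` is the union of its values. -/
def IsUnionOfBorel (X τ S : M) : Prop :=
  ∃ W B, IsOmegaOne E W ∧ ∃ b : El E W → El E B, Fun1 E b ∧ (∀ α, IsBorel E X τ (b α).1) ∧
    ∀ x, E x S ↔ ∃ α, E x (b α).1

/-! ### Polish groups and actions -/

variable {E}

/-- `G` with the topology `τ` and the multiplication `mul` is a Polish group. -/
structure IsPolishGroup (ℛ : Reals E) (G τ : M) (mul : El E G → El E G → El E G) : Prop where
  polish : IsPolish ℛ G τ
  mem : Fun2 E mul
  assoc : ∀ x y z, mul (mul x y) z = mul x (mul y z)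
  one_inv : ∃ (e : El E G) (inv : El E G → El E G), Fun1 E inv ∧
    (∀ x, mul e x = x ∧ mul x e = x ∧ mul (inv x) x = e ∧ mul x (inv x) = e) ∧
    ∀ x O, E O τ → E (inv x).1 O → ∃ U, E U τ ∧ E x.1 U ∧ ∀ y : El E G, E y.1 U → E (inv y).1 O
  cont : ∀ x y O, E O τ → E (mul x y).1 O → ∃ U V, E U τ ∧ E V τ ∧ E x.1 U ∧ E y.1 V ∧
    ∀ x' y' : El E G, E x'.1 U → E y'.1 V → E (mul x' y').1 O

/-- `a` is an action of the group `G` on the set `S`, in the model. -/
structure IsAction {G S : M} (mul : El E G → El E G → El E G) (a : El E G → El E S → El E S) :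
    Prop where
  mem : Fun2 E a
  one : ∀ e : El E G, (∀ g, mul e g = g) → ∀ x, a e x = x
  mul : ∀ g h x, a g (a h x) = a (mul g h) x

variable (E)

/-- The action `a : G × S → S` is continuous for the topology `τG` on `G` and the topology on `S`
whose open sets are the sets with the property `T`. -/
def ContAction {G S : M} (τG : M) (T : M → Prop) (a : El E G → El E S → El E S) : Prop :=
  ∀ g x O, T O → E (a g x).1 O → ∃ U V, E U τG ∧ T V ∧ E g.1 U ∧ E x.1 V ∧
    ∀ (g' : El E G) (x' : El E S), E g'.1 U → E x'.1 V → E (a g' x').1 O

/-- `O` is an open set of the subspace topology on `S`. -/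
def IsRelOpen (τ S O : M) : Prop := ∃ O', E O' τ ∧ ∀ x, E x O ↔ E x S ∧ E x O'

variable {E}

/-- The data `(G, X, S, a)` are admissible: `G` is a Polish group, `X` is a Polish space with the
topology `τ`, the subset `S` is a union of `ℵ₁` Borel sets of `X`, and `a` is a continuous action
of `G` on `S` with the subspace topology. -/
structure Admissible (ℛ : Reals E) {G S : M} (τG : M) (mul : El E G → El E G → El E G) (X τ : M)
    (a : El E G → El E S → El E S) : Prop where
  group : IsPolishGroup ℛ G τG mul
  space : IsPolish ℛ X τ
  union : IsUnionOfBorel E X τ S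
  action : IsAction mul a
  cont : ContAction E τG (IsRelOpen E τ S) a

/-- `t` is a good refinement: a topology on `S` that is finer than the subspace topology, is
completely metrizable, has a basis with at most `ℵ₁` elements, and for which the action is
continuous. -/
structure GoodRefinement (ℛ : Reals E) {G S : M} (τG τ : M) (a : El E G → El E S → El E S)
    (t : M) : Prop where
  finer : ∀ O, IsRelOpen E τ S O → E O t
  metrizable : CompletelyMetrizable ℛ S t
  basis : ∃ β, CardLeAlephOne E β ∧ (∀ U, E U β → E U t) ∧
    ∀ O x, E O t → E x O → ∃ U, E U β ∧ E x U ∧ ∀ y, E y U → E y O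
  cont : ContAction E τG (fun O => E O t) a

end Pool.Agent.Lib.MP_0baed1_lc
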