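import Pool.Agent.Lib.MP_0baed1_lc.Bridge

/-!
# Typed form of determinacy
-/

namespace Pool.Agent.Lib.MP_0baed1_lc

open Pool.Agent.Lib.MP_c7a422_lc.Z Pool.Agent.Lib.MP_c7a422_lc.Z.Ctx

universe u v w

variable {𝓜 : Ctx.{u}}

/-- determinacy for games with moves in a retract -/
theorem TDet.retract {B C : Type u} [Rep 𝓜 B] [Rep 𝓜 C] (h : TDet 𝓜 B) (i : IFun 𝓜 C B)
    (p : IFun 𝓜 B C) (hpi : ∀ c, p (i c) = c) : TDet 𝓜 C := by
  intro P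
  have e : ∀ z : IFun 𝓜 𝓜.N C,
      (⟨fun n => p (i (z n)), by fun_prop⟩ : IFun 𝓜 𝓜.N C) = z := by
    intro z
    ext n
    exact hpi _
  rcases h ⟨fun q => P (⟨fun n => p (q.1 n), by fun_prop⟩, ⟨fun n => p (q.2 n), by fun_prop⟩), by
    fun_prop⟩ with ⟨F, hF, hF'⟩ | ⟨F, hF, hF'⟩
  · left
    refine ⟨⟨fun y => ⟨fun n => p (F ⟨fun n => i (y n), by fun_prop⟩ n), by fun_prop⟩, by fun_prop⟩,
      fun y y' n hy => ?_, fun y => ?_⟩
    · show p (F _ n) = p (F _ n)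
      rw [hF ⟨fun n => i (y n), by fun_prop⟩ ⟨fun n => i (y' n), by fun_prop⟩ n
        fun k hk => congrArg i (hy k hk)]
    · have h1 := hF' ⟨fun n => i (y n), by fun_prop⟩
      change P (⟨fun n => p (F ⟨fun n => i (y n), _⟩ n), _⟩, ⟨fun n => p (i (y n)), _⟩) at h1
      rw [e y] at h1
      exact h1
  · right
    refine ⟨⟨fun y => ⟨fun n => p (F ⟨fun n => i (y n), by fun_prop⟩ n), by fun_prop⟩, by fun_prop⟩,
      fun y y' n hy => ?_, fun y => ?_⟩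
    · show p (F _ n) = p (F _ n)
      rw [hF ⟨fun n => i (y n), by fun_prop⟩ ⟨fun n => i (y' n), by fun_prop⟩ n
        fun k hk => congrArg i (hy k hk)]
    · have h1 := hF' ⟨fun n => i (y n), by fun_prop⟩
      change ¬ P (⟨fun n => p (i (y n)), _⟩, ⟨fun n => p (F ⟨fun n => i (y n), _⟩ n), _⟩) at h1
      rw [e y] at h1
      exact h1

/-! ### Sequences of the model -/

section seq

variable (B : 𝓜.M)

/-- the set of all sequences of elements of `B` -/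
noncomputable def QB : 𝓜.M := 𝓜.car (IFun 𝓜 𝓜.Om (El 𝓜.E B))

theorem isSeqSet_QB : IsSeqSet 𝓜.E 𝓜.om B (QB B) := by
  intro q
  unfold QB
  rw [mem_car]
  constructor
  · rintro ⟨f, rfl⟩
    refine ⟨f, fun z => ?_⟩
    rw [code_ifun, mem_graph]
    simp only [isPair_iff]
    rfl
  · rintro ⟨f, hf⟩
    have hfd : 𝓜.Dfn f := fun1_iff.1 ⟨q, hf⟩
    refine ⟨⟨f, hfd⟩, 𝓜.ext fun z => ?_⟩
    rw [code_ifun, mem_graph, hf]
    simp only [isPair_iff]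
    rfl

theorem exists_toFun : ∃ j : El 𝓜.E (QB B) → IFun 𝓜 𝓜.Om (El 𝓜.E B), ∀ q, 𝓜.code (j q) = q.1 := by
  have h : ∀ q : El 𝓜.E (QB B), ∃ f : IFun 𝓜 𝓜.Om (El 𝓜.E B), 𝓜.code f = q.1 :=
    fun q => mem_car.1 q.2
  choose j hj using h
  exact ⟨j, hj⟩

/-- the function with the given graph -/
noncomputable def toFun' (q : El 𝓜.E (QB B)) : IFun 𝓜 𝓜.Om (El 𝓜.E B) := (exists_toFun B).choose q

theorem toFun'_codeMap : 𝓜.CodeMap (toFun' B) := (exists_toFun B).choose_spec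

theorem toFun'_dfn : 𝓜.Dfn (toFun' B) := (toFun'_codeMap B).dfn

/-- the typed sequence -/
noncomputable def JJ : IFun 𝓜 (El 𝓜.E (QB B)) (IFun 𝓜 𝓜.N (El 𝓜.E B)) :=
  ⟨fun q => ⟨fun n => toFun' B q (jn n), by fun_prop⟩, by
    have h := toFun'_dfn B
    let t : IFun 𝓜 (El 𝓜.E (QB B)) (IFun 𝓜 𝓜.Om (El 𝓜.E B)) := ⟨_, h⟩
    show 𝓜.Dfn (fun q => (⟨fun n => t q (jn n), by fun_prop⟩ : IFun 𝓜 𝓜.N (El 𝓜.E B)))
    fun_prop⟩

/-- the sequence of the model given by a typed sequence -/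
noncomputable def KK (s : IFun 𝓜 𝓜.N (El 𝓜.E B)) : El 𝓜.E (QB B) :=
  ⟨𝓜.code (⟨fun x => s (nj 𝓜 x), by fun_prop⟩ : IFun 𝓜 𝓜.Om (El 𝓜.E B)), code_mem _⟩

theorem toFun'_KK (s : IFun 𝓜 𝓜.N (El 𝓜.E B)) :
    toFun' B (KK B s) = ⟨fun x => s (nj 𝓜 x), by fun_prop⟩ := code_inj (toFun'_codeMap B _)

theorem JJ_KK (s : IFun 𝓜 𝓜.N (El 𝓜.E B)) : JJ B (KK B s) = s := by
  refine ifun_ext fun n => ?_
  show toFun' B (KK B s) (jn n) = s n
  rw [toFun'_KK]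
  show s (nj 𝓜 (jn n)) = s n
  rw [nj_jn]

theorem JJ_inj {q q' : El 𝓜.E (QB B)} (h : JJ B q = JJ B q') : q = q' := by
  apply (toFun'_codeMap B).inj
  refine ifun_ext fun x => ?_
  have h1 : JJ B q (nj 𝓜 x) = JJ B q' (nj 𝓜 x) := by rw [h]
  change toFun' B q (jn (nj 𝓜 x)) = toFun' B q' (jn (nj 𝓜 x)) at h1
  rw [jn_nj] at h1
  exact h1

theorem KK_JJ (q : El 𝓜.E (QB B)) : KK B (JJ B q) = q := JJ_inj B (JJ_KK B _)

theorem dfn_KK : 𝓜.Dfn (KK B) :=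
  Dfn.of_graph (s := fun s q => JJ B q = s) (by fun_prop) fun s q =>
    ⟨fun h => by rw [← h, KK_JJ], fun h => by rw [← h, JJ_KK]⟩

theorem hasTerm_iff (q : El 𝓜.E (QB B)) (n : 𝓜.N) (b : 𝓜.M) :
    HasTerm 𝓜.E q.1 (jn n).1 b ↔ b = (JJ B q n).1 := by
  unfold HasTerm
  have hq : 𝓜.code (toFun' B q) = q.1 := toFun'_codeMap B q
  rw [← hq]
  simp only [isPair_iff, exists_eq_right, code_ifun, mem_graph]
  constructor
  · rintro ⟨x, h⟩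
    rw [op_inj] at h
    obtain ⟨h1, h2⟩ := h
    obtain rfl : jn n = x := Subtype.ext h1
    exact h2
  · rintro rfl
    exact ⟨jn n, rfl⟩

theorem agree_iff (q q' : El 𝓜.E (QB B)) (n : 𝓜.N) :
    Agree 𝓜.E q.1 q'.1 (jn n).1 ↔ ∀ k < n, JJ B q k = JJ B q' k := by
  unfold Agree
  constructor
  · intro h k hk
    have h1 := (h (jn k).1 (JJ B q k).1 (mem_jn_jn.2 hk)).1 ((hasTerm_iff B q k _).2 rfl)
    rw [hasTerm_iff] at h1
    exact Subtype.ext h1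
  · intro h k b hk
    obtain ⟨i, hi, rfl⟩ := mem_jn.1 hk
    rw [hasTerm_iff, hasTerm_iff, h i hi]

theorem term_eq_iff (q q' : El 𝓜.E (QB B)) (n : 𝓜.N) :
    (∀ b, HasTerm 𝓜.E q.1 (jn n).1 b ↔ HasTerm 𝓜.E q'.1 (jn n).1 b) ↔ JJ B q n = JJ B q' n := by
  simp only [hasTerm_iff]
  constructor
  · intro h
    exact Subtype.ext ((h _).1 rfl)
  · intro h b
    rw [h]

/-- the typed form of determinacy -/
theorem tdet_of_determined (h : Determined 𝓜.E B) : TDet 𝓜 (El 𝓜.E B) := by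
  intro P
  have hK := dfn_KK B
  rcases h 𝓜.om (QB B) (fun x y => P (JJ B x, JJ B y)) isOmega_om (isSeqSet_QB B)
    (rel2_iff.2 (by fun_prop)) with ⟨F, ⟨hF, hF'⟩, hwin⟩ | ⟨F, ⟨hF, hF'⟩, hwin⟩
  · left
    rw [fun1_iff] at hF
    refine ⟨⟨fun s => JJ B (F (KK B s)), by fun_prop⟩, fun y y' n hy => ?_, fun y => ?_⟩
    · have h1 := hF' (KK B y) (KK B y') (jn n) ((agree_iff B _ _ n).2 (by
        intro k hk
        rw [JJ_KK, JJ_KK]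
        exact hy k hk))
      exact (term_eq_iff B _ _ n).1 h1
    · have h1 := hwin (KK B y)
      rw [JJ_KK] at h1
      exact h1
  · right
    rw [fun1_iff] at hF
    refine ⟨⟨fun s => JJ B (F (KK B s)), by fun_prop⟩, fun y y' n hy => ?_, fun y => ?_⟩
    · have h1 := hF' (KK B y) (KK B y') (jn n) (jn (n + 1)) (isSucc_iff.2 rfl)
        ((agree_iff B _ _ (n + 1)).2 (by
          intro k hk
          rw [JJ_KK, JJ_KK]
          exact hy k (N_lt_add_one_iff.1 hk)))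
      exact (term_eq_iff B _ _ n).1 h1
    · have h1 := hwin (KK B y)
      rw [JJ_KK] at h1
      exact h1

end seq

theorem tdet_of_ad (h : AD 𝓜.E) : TDet 𝓜 𝓜.N :=
  (tdet_of_determined 𝓜.om (h 𝓜.om isOmega_om)).retract ⟨fun n => jn n, by fun_prop⟩ (nj 𝓜)
    fun n => nj_jn n

theorem exists_floor (𝓜 : Ctx.{u}) : ∃ p : IFun 𝓜 𝓜.R 𝓜.N, ∀ n : 𝓜.N, p (n : 𝓜.R) = n := by
  classical
  have h1 : ∀ r : 𝓜.R, ∃ n : 𝓜.N, (n : 𝓜.R) = r ∨ ((¬ ∃ n : 𝓜.N, (n : 𝓜.R) = r) ∧ n = 0) := by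
    intro r
    by_cases h : ∃ n : 𝓜.N, (n : 𝓜.R) = r
    · obtain ⟨n, hn⟩ := h
      exact ⟨n, Or.inl hn⟩
    · exact ⟨0, Or.inr ⟨h, rfl⟩⟩
  choose f hf using h1
  have hfd : 𝓜.Dfn f := by
    refine Dfn.of_graph (s := fun (r : 𝓜.R) (n : 𝓜.N) => (n : 𝓜.R) = r ∨
      ((¬ ∃ n : 𝓜.N, (n : 𝓜.R) = r) ∧ n = 0)) (by fun_prop) fun r n => ⟨fun h => ?_, ?_⟩
    · rcases h with h | ⟨h, h'⟩
      · rcases hf r with h2 | ⟨h2, -⟩
        · exact toR_inj.1 (h2.trans h.symm)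
        · exact absurd ⟨n, h⟩ h2
      · rcases hf r with h2 | ⟨-, h2⟩
        · exact absurd ⟨_, h2⟩ h
        · rw [h2, h']
    · rintro rfl
      exact hf r
  refine ⟨⟨f, hfd⟩, fun n => ?_⟩
  show f (n : 𝓜.R) = n
  rcases hf (n : 𝓜.R) with h2 | ⟨h2, -⟩
  · exact toR_inj.1 h2
  · exact absurd ⟨n, rfl⟩ h2

theorem tdet_of_adr (h : ADR 𝓜.rl) : TDet 𝓜 𝓜.N := by
  obtain ⟨p, hp⟩ := exists_floor 𝓜
  have h1 : TDet 𝓜 𝓜.R := tdet_of_determined 𝓜.rl.R h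
  exact h1.retract ⟨fun n => (n : 𝓜.R), by fun_prop⟩ p hp

end Pool.Agent.Lib.MP_0baed1_lc
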