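import Pool.Agent.Lib.MP_0baed1_lc.Base

/-!
# A complete metric space with a well-ordered basis has a well-ordered dense subset
-/

namespace Pool.Agent.Lib.MP_0baed1_lc

open Pool.Agent.Lib.MP_c7a422_lc.Z Pool.Agent.Lib.MP_c7a422_lc.Z.Ctx

universe u v w

variable {𝓜 : Ctx.{u}} {Y J : Type u} [Rep 𝓜 Y] [Rep 𝓜 J]

/-- `U_k` is nonempty, has diameter at most `1 / (n + 1)`, and its closure is contained in `U_j` -/
def Sm (ρ : IFun 𝓜 (Y × Y) 𝓜.R) (U : ISet 𝓜 (J × Y)) (n : 𝓜.N) (j k : J) : Prop :=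
  (∃ y, U (k, y)) ∧ (∀ y z, U (k, y) → U (k, z) → ρ (y, z) ≤ 1 / ((n : 𝓜.R) + 1)) ∧
    ∀ y, (∀ ε : 𝓜.R, 0 < ε → ∃ z, U (k, z) ∧ ρ (y, z) < ε) → U (j, y)

@[fun_prop]
theorem dfn_Sm {γ : Type*} [Rep 𝓜 γ] {ρ : γ → IFun 𝓜 (Y × Y) 𝓜.R} {U : γ → ISet 𝓜 (J × Y)}
    {n : γ → 𝓜.N} {j k : γ → J} (hρ : 𝓜.Dfn ρ) (hU : 𝓜.Dfn U) (hn : 𝓜.Dfn n) (hj : 𝓜.Dfn j)
    (hk : 𝓜.Dfn k) : 𝓜.Dfn (fun c => Sm (ρ c) (U c) (n c) (j c) (k c)) := by
  unfold Sm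
  simp only [al_iff, imp_iff_not_or]
  fun_prop

theorem exists_dense (hCC : TCC 𝓜) (ρ : IFun 𝓜 (Y × Y) 𝓜.R) (hρ : MetOn univ ρ)
    (hc : Complete univ ρ) (y₀ : Y) (r : ISet 𝓜 (J × J)) (hr : IsWO univ r) (U : ISet 𝓜 (J × Y))
    (hopen : ∀ j y, U (j, y) → ∃ ε > 0, ∀ z, ρ (y, z) < ε → U (j, z))
    (hbasis : ∀ y, ∀ ε > 0, ∃ j, U (j, y) ∧ ∀ z, U (j, z) → ρ (y, z) < ε) :
    ∃ x : IFun 𝓜 J Y, ∀ y, ∀ ε > 0, ∃ j, ρ (y, x j) < ε := by
  classical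
  have hself : ∀ y, ρ (y, y) = 0 := fun y => hρ.self y trivial
  have hsymm : ∀ y z, ρ (y, z) = ρ (z, y) := fun y z => hρ.symm y z trivial trivial
  have htri : ∀ x y z, ρ (x, z) ≤ ρ (x, y) + ρ (y, z) := fun x y z =>
    hρ.tri x y z trivial trivial trivial
  have hnn : ∀ x y, 0 ≤ ρ (x, y) := fun x y => hρ.nonneg trivial trivial
  obtain ⟨j₀, hj₀, -⟩ := hbasis y₀ 1 one_pos
  have hsm : ∀ (n : 𝓜.N) (j : J), (∃ y, U (j, y)) → ∃ k, Sm ρ U n j k := by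
    rintro n j ⟨y, hy⟩
    obtain ⟨ε, hε, hε'⟩ := hopen j y hy
    have hn : (0 : 𝓜.R) < (n : 𝓜.R) + 1 := by
      have := toR_nonneg n
      linarith
    have hδ : 0 < min (ε / 2) (1 / ((n : 𝓜.R) + 1) / 2) := lt_min (half_pos hε) (by positivity)
    obtain ⟨k, hk, hk'⟩ := hbasis y _ hδ
    refine ⟨k, ⟨y, hk⟩, fun z w hz hw => ?_, fun z hz => hε' z ?_⟩
    · have h1 := hk' z hz
      have h2 := hk' w hw
      have h3 := htri z y w
      have h4 := hsymm z y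
      have h5 := min_le_right (ε / 2) (1 / ((n : 𝓜.R) + 1) / 2)
      linarith
    · obtain ⟨w, hw, hw'⟩ := hz (ε / 2) (half_pos hε)
      have h1 := hk' w hw
      have h3 := htri y w z
      have h4 := hsymm z w
      have h5 := min_le_left (ε / 2) (1 / ((n : 𝓜.R) + 1) / 2)
      linarith
  obtain ⟨σ, hσ⟩ := hr.sel j₀
  let T : IFun 𝓜 (𝓜.N × J) (ISet 𝓜 J) := ⟨fun p => ⟨fun k => Sm ρ U p.1 p.2 k, by fun_prop⟩, by
    fun_prop⟩
  let g : IFun 𝓜 (𝓜.N × J) J := ⟨fun p => σ (T p), by fun_prop⟩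
  let js : IFun 𝓜 (J × 𝓜.N) J := ⟨fun p => nrec p.1 g p.2, by fun_prop⟩
  have hjs0 : ∀ j, js (j, 0) = j := fun j => nrec_zero j g
  have hjs1 : ∀ j n, js (j, n + 1) = σ (T (n, js (j, n))) := fun j n => nrec_succ j g n
  have hne : ∀ j, (∃ y, U (j, y)) → ∀ n, ∃ y, U (js (j, n), y) := by
    intro j hj
    refine ind (P := fun n => ∃ y, U (js (j, n), y)) (by fun_prop) ?_ fun n ih => ?_
    · rw [hjs0]
      exact hj
    · obtain ⟨k, hk⟩ := hsm n _ ih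
      have h1 := (hσ (T (n, js (j, n))) ⟨k, hk, trivial⟩).1
      rw [hjs1]
      exact h1.1
  have hSm : ∀ j, (∃ y, U (j, y)) → ∀ n, Sm ρ U n (js (j, n)) (js (j, n + 1)) := by
    intro j hj n
    obtain ⟨k, hk⟩ := hsm n _ (hne j hj n)
    have h1 := (hσ (T (n, js (j, n))) ⟨k, hk, trivial⟩).1
    rw [hjs1]
    exact h1
  have hsub : ∀ j, (∃ y, U (j, y)) → ∀ n y, U (js (j, n + 1), y) → U (js (j, n), y) := by
    intro j hj n y hy
    exact (hSm j hj n).2.2 y fun ε hε => ⟨y, hy, by rw [hself]; exact hε⟩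
  have hsub' : ∀ j, (∃ y, U (j, y)) → ∀ n m, n ≤ m → ∀ y, U (js (j, m), y) → U (js (j, n), y) := by
    intro j hj n m hnm
    revert hnm
    refine ind (P := fun m => n ≤ m → ∀ y, U (js (j, m), y) → U (js (j, n), y))
      (by simp only [al_iff, imp_iff_not_or]; fun_prop) (fun h y hy => ?_)
      (fun m ih h y hy => ?_) m
    · have : n = 0 := le_antisymm h (N_nonneg n)
      rw [this]
      exact hy
    · rcases h.lt_or_eq with h1 | h1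
      · exact ih (N_lt_add_one_iff.1 h1) y (hsub j hj m y hy)
      · rw [h1]
        exact hy
  -- the points
  have hpt : ∀ j, (∃ y, U (j, y)) → ∃ x, ∀ n, U (js (j, n), x) := by
    intro j hj
    obtain ⟨f, hf⟩ := hCC Y ⟨fun q => U (js (j, q.1), q.2), by fun_prop⟩ (hne j hj)
    have hf' : ∀ n, U (js (j, n), f n) := hf
    obtain ⟨x, -, hx⟩ := hc f (fun _ => trivial) (fun ε hε => by
      obtain ⟨n, hn⟩ := exists_one_div_lt hε
      refine ⟨n + 1, fun k m hk hm => ?_⟩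
      exact ((hSm j hj n).2.1 _ _ (hsub' j hj _ _ hk _ (hf' k))
        (hsub' j hj _ _ hm _ (hf' m))).trans hn.le)
    refine ⟨x, fun n => (hSm j hj n).2.2 x fun ε hε => ?_⟩
    obtain ⟨m, hm⟩ := hx (ε / 2) (half_pos hε)
    refine ⟨f (max m (n + 1)), hsub' j hj _ _ (le_max_right _ _) _ (hf' _), ?_⟩
    have h1 := hm _ (le_max_left m (n + 1))
    rw [hsymm]
    linarith
  have huniq : ∀ j, (∃ y, U (j, y)) → ∀ x x', (∀ n, U (js (j, n), x)) →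
      (∀ n, U (js (j, n), x')) → x = x' := by
    intro j hj x x' hx hx'
    refine hρ.sep x x' trivial trivial (le_antisymm ?_ (hnn _ _))
    by_contra hcon
    push Not at hcon
    obtain ⟨n, hn⟩ := exists_one_div_lt hcon
    exact absurd ((hSm j hj n).2.1 _ _ (hx (n + 1)) (hx' (n + 1))) (not_le.2 hn)
  have hex : ∀ j, ∃ x, ((∃ y, U (j, y)) ∧ ∀ n, U (js (j, n), x)) ∨ (¬ (∃ y, U (j, y)) ∧ x = y₀) := by
    intro j
    by_cases hj : ∃ y, U (j, y)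
    · obtain ⟨x, hx⟩ := hpt j hj
      exact ⟨x, Or.inl ⟨hj, hx⟩⟩
    · exact ⟨y₀, Or.inr ⟨hj, rfl⟩⟩
  choose x hx using hex
  have hxd : 𝓜.Dfn x := by
    refine Dfn.of_graph (s := fun j x => ((∃ y, U (j, y)) ∧ ∀ n, U (js (j, n), x)) ∨
      (¬ (∃ y, U (j, y)) ∧ x = y₀)) (by simp only [al_iff]; fun_prop) fun j z => ⟨fun h => ?_, ?_⟩
    · rcases h with ⟨h, h'⟩ | ⟨h, h'⟩
      · rcases hx j with ⟨-, h2⟩ | ⟨h2, -⟩
        · exact huniq j h _ _ h2 h'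
        · exact absurd h h2
      · rcases hx j with ⟨h2, -⟩ | ⟨-, h2⟩
        · exact absurd h2 h
        · rw [h2, h']
    · rintro rfl
      exact hx j
  refine ⟨⟨x, hxd⟩, fun y ε hε => ?_⟩
  obtain ⟨j, hj, hj'⟩ := hbasis y ε hε
  refine ⟨j, hj' _ ?_⟩
  show U (j, x j)
  rcases hx j with ⟨-, h2⟩ | ⟨h2, -⟩
  · have h3 := h2 0
    rw [hjs0] at h3
    exact h3
  · exact absurd ⟨y, hj⟩ h2

/-! ### Countable dense sets -/

/-- if the dense set is given by an internal function from a well-ordered set and the space is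
mapped injectively into the Baire space, then there is a dense sequence -/
theorem exists_dense_seq (hWO : ∀ D : ISet 𝓜 (Bai 𝓜), WOon D → TCount D)
    (r : ISet 𝓜 (J × J)) (hr : IsWO univ r) (x : IFun 𝓜 J Y) (y₀ : Y) (ι : IFun 𝓜 Y (Bai 𝓜))
    (hι : ∀ y z, ι y = ι z → y = z) (j₀ : J) :
    ∃ e : IFun 𝓜 𝓜.N Y, ∀ j, ∃ n, e n = x j := by
  classical
  -- the image is well-orderable
  let D : ISet 𝓜 (Bai 𝓜) := ⟨fun d => ∃ j, ι (x j) = d, by fun_prop⟩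
  obtain ⟨σ, hσ⟩ := hr.sel j₀
  let T : IFun 𝓜 (Bai 𝓜) (ISet 𝓜 J) := ⟨fun d => ⟨fun j => ι (x j) = d, by fun_prop⟩, by fun_prop⟩
  have hD : WOon D := by
    refine WOon.of_inj (S' := (univ : ISet 𝓜 J)) (⟨fun d => σ (T d), by fun_prop⟩)
      (fun _ _ => trivial) (fun d d' hd hd' h => ?_) ⟨r, hr⟩
    obtain ⟨j, hj⟩ := hd
    obtain ⟨j', hj'⟩ := hd'
    have h1 : ι (x (σ (T d))) = d := (hσ (T d) ⟨j, hj, trivial⟩).1
    have h2 : ι (x (σ (T d'))) = d' := (hσ (T d') ⟨j', hj', trivial⟩).1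
    have h3 : σ (T d) = σ (T d') := h
    rw [← h1, ← h2, h3]
  obtain ⟨e, he⟩ := hWO D hD
  have h1 : ∀ n, ∃ y, ι y = e n ∨ ((¬ ∃ y, ι y = e n) ∧ y = y₀) := by
    intro n
    by_cases h : ∃ y, ι y = e n
    · obtain ⟨y, hy⟩ := h
      exact ⟨y, Or.inl hy⟩
    · exact ⟨y₀, Or.inr ⟨h, rfl⟩⟩
  choose f hf using h1
  have hfd : 𝓜.Dfn f := by
    refine Dfn.of_graph (s := fun n y => ι y = e n ∨ ((¬ ∃ y, ι y = e n) ∧ y = y₀)) (by fun_prop)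
      fun n y => ⟨fun h => ?_, ?_⟩
    · rcases h with h | ⟨h, h'⟩
      · rcases hf n with h2 | ⟨h2, -⟩
        · exact hι _ _ (h2.trans h.symm)
        · exact absurd ⟨y, h⟩ h2
      · rcases hf n with h2 | ⟨-, h2⟩
        · exact absurd ⟨_, h2⟩ h
        · rw [h2, h']
    · rintro rfl
      exact hf n
  refine ⟨⟨f, hfd⟩, fun j => ?_⟩
  obtain ⟨n, hn⟩ := he (ι (x j)) ⟨j, rfl⟩
  refine ⟨n, ?_⟩
  show f n = x j
  rcases hf n with h2 | ⟨h2, -⟩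
  · exact hι _ _ (h2.trans hn)
  · exact absurd ⟨x j, hn.symm⟩ h2

end Pool.Agent.Lib.MP_0baed1_lc
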