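import Pool.Agent.Lib.MP_0baed1_lc.Adm
import Pool.Agent.Lib.MP_0baed1_lc.Cone
import Pool.Agent.Lib.MP_0baed1_lc.Choice
import Pool.Agent.Lib.MP_0baed1_lc.Points
import Pool.Agent.Lib.MP_0baed1_lc.Code
import Pool.Agent.Lib.MP_0baed1_lc.Det

/-!
# Good refinements are Polish; the diagonal coanalytic set has none
-/

namespace Pool.Agent.Lib.MP_0baed1_lc

open Pool.Agent.Lib.MP_c7a422_lc.Z Pool.Agent.Lib.MP_c7a422_lc.Z.Ctx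

universe u v w

variable {𝓜 : Ctx.{u}}

/-- sets with at most `ℵ₁` elements are well-orderable -/
theorem woOn_of_card {β : 𝓜.M} (h : CardLeAlephOne 𝓜.E β) : WOon (univ : ISet 𝓜 (El 𝓜.E β)) := by
  obtain ⟨W, hW, f, hf, hinj⟩ := h
  rw [fun1_iff] at hf
  exact WOon.of_inj (S' := (univ : ISet 𝓜 (El 𝓜.E W))) ⟨f, hf⟩ (fun _ _ => trivial)
    (fun x y _ _ h => hinj h) ⟨_, w1_isWO hW⟩

/-- the typed form of well-orderability -/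
theorem woOn_of_wellOrderable {β : 𝓜.M} (h : WellOrderable 𝓜.E β) :
    WOon (univ : ISet 𝓜 (El 𝓜.E β)) := by
  obtain ⟨r, hr, h1, h2, h3, h4⟩ := h
  rw [rel2_iff] at hr
  refine ⟨⟨_, hr⟩, fun x _ => h1 x, fun x y z _ _ _ => h2 x y z, fun x y _ _ => h3 x y,
    fun s _ hs => ?_⟩
  obtain ⟨m, hm⟩ := exists_setOf (𝓜 := 𝓜) (α := El 𝓜.E β) (s := fun x => s x) (by fun_prop)
  have hm' : ∀ x : El 𝓜.E β, 𝓜.E x.1 m ↔ s x := by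
    intro x
    rw [hm]
    constructor
    · rintro ⟨a, ha, h⟩
      rwa [← show a = x from Subtype.ext h]
    · intro h
      exact ⟨x, h, rfl⟩
  obtain ⟨x, hx⟩ := hs
  obtain ⟨y, hy, hy'⟩ := h4 m ⟨x, (hm' x).2 hx⟩
  exact ⟨y, (hm' y).1 hy, fun z hz => hy' z ((hm' z).2 hz)⟩

/-- a complete metric with a well-orderable basis on a set of reals has a countable dense set -/
theorem exists_seq (hAD : TDet 𝓜 𝓜.N) (hCC : TCC 𝓜) {S t : 𝓜.M}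
    {ρ : IFun 𝓜 (El 𝓜.E S × El 𝓜.E S) 𝓜.R} (hρ : MetOn univ ρ) (hc : Complete univ ρ)
    (ht : ∀ O, 𝓜.E O t ↔ OpenF ρ O) {β : 𝓜.M} (hwo : WOon (univ : ISet 𝓜 (El 𝓜.E β)))
    (hβt : ∀ U, 𝓜.E U β → 𝓜.E U t)
    (hβ : ∀ O x, 𝓜.E O t → 𝓜.E x O → ∃ U, 𝓜.E U β ∧ 𝓜.E x U ∧ ∀ y, 𝓜.E y U → 𝓜.E y O)
    (y₀ : El 𝓜.E S) (ι : IFun 𝓜 (El 𝓜.E S) (Bai 𝓜)) (hι : ∀ y z, ι y = ι z → y = z) :
    ∃ e : IFun 𝓜 𝓜.N (El 𝓜.E S), ∀ y, ∀ ε > 0, ∃ n, ρ (y, e n) < ε := by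
  obtain ⟨r, hr⟩ := hwo
  let mm : ISet 𝓜 (El 𝓜.E S × El 𝓜.E β) := ⟨fun q => 𝓜.E q.1.1 q.2.1, dfn_mem_el _ _⟩
  have hbasis : ∀ y, ∀ ε > 0, ∃ j : El 𝓜.E β, mm (y, j) ∧ ∀ z, mm (z, j) → ρ (y, z) < ε := by
    intro y ε hε
    obtain ⟨O, hO, hO'⟩ := openF_ball hρ y ε
    obtain ⟨U, hU, hyU, hUO⟩ := hβ O y.1 ((ht O).2 hO) ((hO' y).2 (by
      rw [hρ.self y trivial]
      exact hε))
    exact ⟨⟨U, hU⟩, hyU, fun z hz => (hO' z).1 (hUO z.1 hz)⟩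
  obtain ⟨j₀, -, -⟩ := hbasis y₀ 1 one_pos
  obtain ⟨x, hx⟩ := exists_dense hCC ρ hρ hc y₀ r hr (⟨fun q => mm (q.2, q.1), by fun_prop⟩)
    (fun j y hy => by
      obtain ⟨ε, hε, h⟩ := ((ht j.1).1 (hβt j.1 j.2)).2 y hy
      exact ⟨ε, hε, fun z hz => h z hz⟩) hbasis
  obtain ⟨e, he⟩ := exists_dense_seq (fun D hD => tcount_of_wo hAD hCC hD) r hr x y₀ ι hι j₀
  refine ⟨e, fun y ε hε => ?_⟩
  obtain ⟨j, hj⟩ := hx y ε hε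
  obtain ⟨n, hn⟩ := he j
  exact ⟨n, by rw [hn]; exact hj⟩

/-! ### The diagonal set -/

theorem exists_SS_set (𝓜 : Ctx.{u}) : ∃ S, (∀ x, 𝓜.E x S → 𝓜.E x (XB 𝓜)) ∧
    ∀ x : Bai 𝓜, 𝓜.E (𝓜.code x) S ↔ SS 𝓜 x := exists_setB (SS 𝓜)

theorem exists_mem_SS (𝓜 : Ctx.{u}) : ∃ x, SS 𝓜 x := by
  refine ⟨⟨fun _ => 1, by fun_prop⟩, fun ⟨z, hz⟩ => ?_⟩
  exact one_ne_zero_N (hz 0)

theorem no_good (hAD : TDet 𝓜 𝓜.N) (hCC : TCC 𝓜) {S : 𝓜.M}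
    (hS : ∀ x, 𝓜.E x S → 𝓜.E x (XB 𝓜)) (hS' : ∀ x : Bai 𝓜, 𝓜.E (𝓜.code x) S ↔ SS 𝓜 x)
    {G τG : 𝓜.M} {a : El 𝓜.E G → El 𝓜.E S → El 𝓜.E S} (t : 𝓜.M) :
    ¬ GoodRefinement 𝓜.rl τG (τB 𝓜) a t := by
  intro h
  obtain ⟨ρ, hρ, hc, ht⟩ := completelyMetrizable_iff.1 h.metrizable
  obtain ⟨x₀, hx₀⟩ := exists_mem_SS 𝓜
  -- the inclusion
  have hi : ∀ y : El 𝓜.E S, ∃ x : Bai 𝓜, 𝓜.code x = y.1 := fun y => mem_car.1 (hS y.1 y.2)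
  choose j hj using hi
  have hjc : 𝓜.CodeMap j := hj
  let ι : IFun 𝓜 (El 𝓜.E S) (Bai 𝓜) := ⟨j, hjc.dfn⟩
  have hι : ∀ y z, ι y = ι z → y = z := fun y z h => hjc.inj h
  have hιc : ∀ y, 𝓜.code (ι y) = y.1 := hj
  obtain ⟨β, hβ1, hβ2, hβ3⟩ := h.basis
  obtain ⟨e, he⟩ := exists_seq hAD hCC hρ hc ht (woOn_of_card hβ1) hβ2 hβ3
    ⟨𝓜.code x₀, (hS' x₀).2 hx₀⟩ ι hι
  obtain ⟨c, hcc⟩ := exists_section hCC ρ hρ hc e he ι (by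
    intro y n
    obtain ⟨O, hO, hO'⟩ := exists_sub (X := XB 𝓜) (P := fun x => ¬ ∃ k, k < n ∧ toB 𝓜 x k ≠ ι y k)
      (by fun_prop)
    have hO'' : ∀ x : El 𝓜.E (XB 𝓜), 𝓜.E x.1 O ↔ ∀ k < n, toB 𝓜 x k = ι y k := by
      intro x
      rw [hO']
      push Not
      rfl
    have hOτ : 𝓜.E O (τB 𝓜) := by
      rw [mem_τB]
      refine ⟨hO, fun x hx => ⟨_, inv_pos_N n, fun z hz => ?_⟩⟩
      rw [hO''] at hx ⊢
      intro k hk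
      rw [← hx k hk]
      exact (agree_of_dB_lt hz k hk.le).symm
    obtain ⟨V, hV, hV'⟩ := exists_sub (X := S) (P := fun z => 𝓜.E z.1 O) (dfn_mem_set S O)
    have hVt : 𝓜.E V t := by
      refine h.finer V ⟨O, hOτ, fun x => ⟨fun hx => ?_, fun hx => ?_⟩⟩
      · exact ⟨hV x hx, (hV' ⟨x, hV x hx⟩).1 hx⟩
      · exact (hV' ⟨x, hx.1⟩).2 hx.2
    have hmem : ∀ z : El 𝓜.E S, 𝓜.E z.1 V ↔ ∀ k < n, ι z k = ι y k := by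
      intro z
      rw [hV']
      have h1 := hO'' (ofB (ι z))
      rw [toB_ofB] at h1
      rw [← h1]
      show 𝓜.E z.1 O ↔ 𝓜.E (𝓜.code (ι z)) O
      rw [hιc]
    obtain ⟨ε, hε, h1⟩ := ((ht V).1 hVt).2 y ((hmem y).2 fun _ _ => rfl)
    exact ⟨ε, hε, fun z hz => (hmem z).1 (h1 z hz)⟩)
  refine diag c fun x => ?_
  rw [← hcc x, ← hS']
  constructor
  · intro hx
    exact ⟨⟨𝓜.code x, hx⟩, code_inj (hιc _)⟩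
  · rintro ⟨y, rfl⟩
    rw [hιc]
    exact y.2

/-! ### Completely metrizable topologies with well-orderable bases are Polish -/

open Classical in
theorem isPolish_of_woOn (hAD : TDet 𝓜 𝓜.N) (hCC : TCC 𝓜) {X τ S t β : 𝓜.M}
    (hX : IsPolish 𝓜.rl X τ) (hSX : ∀ x, 𝓜.E x S → 𝓜.E x X)
    (hS : CompletelyMetrizable 𝓜.rl S t) (hwo : WOon (univ : ISet 𝓜 (El 𝓜.E β)))
    (hβt : ∀ U, 𝓜.E U β → 𝓜.E U t)
    (hβ : ∀ O x, 𝓜.E O t → 𝓜.E x O → ∃ U, 𝓜.E U β ∧ 𝓜.E x U ∧ ∀ y, 𝓜.E y U → 𝓜.E y O) :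
    IsPolish 𝓜.rl S t := by
  refine ⟨hS, ?_⟩
  obtain ⟨ρ, hρ, hc, ht⟩ := completelyMetrizable_iff.1 hS
  obtain ⟨d, hd, -, hτ⟩ := completelyMetrizable_iff.1 hX.1
  by_cases hne : ∃ x, 𝓜.E x S
  · obtain ⟨x₀, hx₀⟩ := hne
    obtain ⟨e, he⟩ := exists_seq_of_isSeparable hd hτ hX.2 ⟨x₀, hSX x₀ hx₀⟩
    have hi : 𝓜.Dfn (fun y : El 𝓜.E S => (⟨y.1, hSX _ y.2⟩ : El 𝓜.E X)) :=
      CodeMap.dfn (fun _ => rfl)
    let i : IFun 𝓜 (El 𝓜.E S) (El 𝓜.E X) := ⟨_, hi⟩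
    let ι : IFun 𝓜 (El 𝓜.E S) (Bai 𝓜) := ⟨fun y => ⟨fun m =>
      if d (i y, e (p1 𝓜 m)) < 1 / ((p2 𝓜 m : 𝓜.R) + 1) then 1 else 0, by fun_prop⟩, by fun_prop⟩
    have hιa : ∀ y n k, ι y (pairN n k) = if d (i y, e n) < 1 / ((k : 𝓜.R) + 1) then 1 else 0 := by
      intro y n k
      show (if d (i y, e (p1 𝓜 (pairN n k))) < 1 / ((p2 𝓜 (pairN n k) : 𝓜.R) + 1) then
        (1 : 𝓜.N) else 0) = _
      rw [p1_pairN, p2_pairN]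
    have hι : ∀ y z, ι y = ι z → y = z := by
      intro y z hyz
      have h1 : ∀ n k : 𝓜.N, d (i y, e n) < 1 / ((k : 𝓜.R) + 1) →
          d (i z, e n) < 1 / ((k : 𝓜.R) + 1) := by
        intro n k hn
        by_contra hcon
        have h2 := hιa y n k
        rw [if_pos hn, hyz, hιa z n k, if_neg hcon] at h2
        exact one_ne_zero_N h2.symm
      have h3 : i y = i z := by
        refine hd.sep _ _ trivial trivial (le_antisymm ?_ (hd.nonneg trivial trivial))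
        by_contra hcon
        push Not at hcon
        obtain ⟨k, hk⟩ := exists_one_div_lt (half_pos hcon)
        obtain ⟨n, hn⟩ := he (i y) _ (inv_pos_N k)
        have h4 := h1 n k hn
        have h5 := hd.tri (i y) (e n) (i z) trivial trivial trivial
        have h6 := hd.symm (i z) (e n) trivial trivial
        linarith
      exact Subtype.ext (show y.1 = z.1 from congrArg (fun q : El 𝓜.E X => q.1) h3)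
    obtain ⟨e', he'⟩ := exists_seq hAD hCC hρ hc ht hwo hβt hβ ⟨x₀, hx₀⟩ ι hι
    exact isSeparable_of_seq ht e' he'
  · push Not at hne
    refine ⟨𝓜.em, isCountable_em, fun x hx => absurd hx (not_mem_em x), fun O hO hx => ?_⟩
    obtain ⟨x, hx⟩ := hx
    exact absurd (((ht O).1 hO).1 x hx) (hne x)

theorem isPolish_of_basis (hAD : TDet 𝓜 𝓜.N) (hCC : TCC 𝓜) {X τ S t β : 𝓜.M}
    (hX : IsPolish 𝓜.rl X τ) (hSX : ∀ x, 𝓜.E x S → 𝓜.E x X)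
    (hS : CompletelyMetrizable 𝓜.rl S t) (hwo : WellOrderable 𝓜.E β)
    (hβt : ∀ U, 𝓜.E U β → 𝓜.E U t)
    (hβ : ∀ O x, 𝓜.E O t → 𝓜.E x O → ∃ U, 𝓜.E U β ∧ 𝓜.E x U ∧ ∀ y, 𝓜.E y U → 𝓜.E y O) :
    IsPolish 𝓜.rl S t :=
  isPolish_of_woOn hAD hCC hX hSX hS (woOn_of_wellOrderable hwo) hβt hβ

theorem isPolish_of_good (hAD : TDet 𝓜 𝓜.N) (hCC : TCC 𝓜) {G τG X τ S t : 𝓜.M}
    {mul : El 𝓜.E G → El 𝓜.E G → El 𝓜.E G} {a : El 𝓜.E G → El 𝓜.E S → El 𝓜.E S}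
    (h : Admissible 𝓜.rl τG mul X τ a) (h' : GoodRefinement 𝓜.rl τG τ a t) :
    IsPolish 𝓜.rl S t := by
  obtain ⟨β, hβ1, hβ2, hβ3⟩ := h'.basis
  refine isPolish_of_woOn hAD hCC h.space ?_ h'.metrizable (woOn_of_card hβ1) hβ2 hβ3
  intro x hx
  obtain ⟨d, -, -, hτ⟩ := completelyMetrizable_iff.1 h.space.1
  obtain ⟨W, B, -, b, -, hb, hS⟩ := h.union
  obtain ⟨α, hα⟩ := (hS x).1 hx
  refine mem_pw.1 (hb α (𝓜.pw X) ⟨fun A hA => mem_pw.1 hA, fun A C _ hC => ?_,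
    fun w s U _ _ hU => ?_⟩ fun O hO => ?_) x hα
  · exact mem_pw.2 fun y hy => ((hC y).1 hy).1
  · refine mem_pw.2 fun y hy => ?_
    obtain ⟨n, hn⟩ := (hU y).1 hy
    exact mem_pw.1 (s n).2 y hn
  · exact mem_pw.2 ((hτ O).1 hO).1

end Pool.Agent.Lib.MP_0baed1_lc
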