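import Pool.Agent.Lib.MP_0baed1_lc.Bridge

/-!
# The set of all countable ordinals of the model
-/

namespace Pool.Agent.Lib.MP_0baed1_lc

open Pool.Agent.Lib.MP_c7a422_lc.Z Pool.Agent.Lib.MP_c7a422_lc.Z.Ctx

universe u v w

variable {𝓜 : Ctx.{u}}

/-! ### Ordinals -/

theorem no_cycle₂ {x y : 𝓜.M} (h1 : 𝓜.E x y) (h2 : 𝓜.E y x) : False := by
  obtain ⟨z, hz, hz'⟩ := 𝓜.zf.found (𝓜.up x y) ⟨x, by simp⟩
  rw [mem_up] at hz
  rcases hz with rfl | rfl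
  · exact hz' y h2 (by simp)
  · exact hz' x h1 (by simp)

theorem no_cycle₃ {x y z : 𝓜.M} (h1 : 𝓜.E x y) (h2 : 𝓜.E y z) (h3 : 𝓜.E z x) : False := by
  have hm : ∀ t, 𝓜.E t (𝓜.un (𝓜.up (𝓜.up x y) (𝓜.up z z))) ↔ t = x ∨ t = y ∨ t = z := by
    intro t
    rw [mem_un]
    constructor
    · rintro ⟨s, hs, ht⟩
      rw [mem_up] at hs
      rcases hs with rfl | rfl
      · rw [mem_up] at ht
        tauto
      · rw [mem_up] at ht
        tauto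
    · rintro (rfl | rfl | rfl)
      · exact ⟨𝓜.up t y, by simp, by simp⟩
      · exact ⟨𝓜.up x t, by simp, by simp⟩
      · exact ⟨𝓜.up t t, by simp, by simp⟩
  obtain ⟨t, ht, ht'⟩ := 𝓜.zf.found _ ⟨x, (hm x).2 (Or.inl rfl)⟩
  rw [hm] at ht
  rcases ht with rfl | rfl | rfl
  · exact ht' z h3 ((hm _).2 (by tauto))
  · exact ht' x h1 ((hm _).2 (by tauto))
  · exact ht' y h2 ((hm _).2 (by tauto))

theorem IsOrdinal.mem {a b : 𝓜.M} (ha : IsOrdinal 𝓜.E a) (hb : 𝓜.E b a) : IsOrdinal 𝓜.E b := by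
  refine ⟨fun x y hx hy => ?_, fun x y hx hy => ha.2 x y (ha.1 b x hb hx) (ha.1 b y hb hy)⟩
  have hxa := ha.1 b x hb hx
  have hya := ha.1 x y hxa hy
  rcases ha.2 y b hya hb with h | rfl | h
  · exact h
  · exact (no_cycle₂ hx hy).elim
  · exact (no_cycle₃ hy hx h).elim

theorem IsOrdinal.total {a b : 𝓜.M} (ha : IsOrdinal 𝓜.E a) (hb : IsOrdinal 𝓜.E b) :
    𝓜.E a b ∨ a = b ∨ 𝓜.E b a := by
  obtain ⟨c, hc⟩ := 𝓜.sepD (n := 1) (P := fun v => 𝓜.E (v 0) (v 1)) (dmem _ _) ![b] a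
  have hc' : ∀ z, 𝓜.E z c ↔ 𝓜.E z a ∧ 𝓜.E z b := hc
  -- `c` is the intersection; it is transitive
  have htr : ∀ x y, 𝓜.E x c → 𝓜.E y x → 𝓜.E y c := fun x y hx hy => by
    rw [hc'] at hx ⊢
    exact ⟨ha.1 x y hx.1 hy, hb.1 x y hx.2 hy⟩
  have key : ∀ a : 𝓜.M, IsOrdinal 𝓜.E a → (∀ z, 𝓜.E z c → 𝓜.E z a) → c = a ∨ 𝓜.E c a := by
    intro a ha hca
    obtain ⟨d, hd⟩ := 𝓜.sepD (n := 1) (P := fun v => ¬ 𝓜.E (v 0) (v 1)) (dnot (dmem _ _)) ![c] a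
    have hd' : ∀ z, 𝓜.E z d ↔ 𝓜.E z a ∧ ¬ 𝓜.E z c := hd
    by_cases hne : ∃ z, 𝓜.E z d
    · obtain ⟨z, hz, hz'⟩ := 𝓜.zf.found d hne
      rw [hd'] at hz
      have e : z = c := by
        refine 𝓜.ext fun t => ⟨fun ht => ?_, fun ht => ?_⟩
        · by_contra hcon
          exact hz' t ht ((hd' t).2 ⟨ha.1 z t hz.1 ht, hcon⟩)
        · rcases ha.2 t z (hca t ht) hz.1 with h | rfl | h
          · exact h
          · exact absurd ht hz.2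
          · exact absurd (htr t z ht h) hz.2
      rw [← e]
      exact Or.inr hz.1
    · push Not at hne
      left
      refine 𝓜.ext fun t => ⟨hca t, fun ht => ?_⟩
      by_contra hcon
      exact hne t ((hd' t).2 ⟨ht, hcon⟩)
  rcases key a ha fun z hz => ((hc' z).1 hz).1 with h1 | h1
  · rcases key b hb fun z hz => ((hc' z).1 hz).2 with h2 | h2
    · exact Or.inr (Or.inl (h1.symm.trans h2))
    · rw [h1] at h2
      exact Or.inl h2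
  · rcases key b hb fun z hz => ((hc' z).1 hz).2 with h2 | h2
    · rw [h2] at h1
      exact Or.inr (Or.inr h1)
    · exact absurd ((hc' c).2 ⟨h1, h2⟩) (not_mem_self c)

theorem isCountable_subset {a b : 𝓜.M} (hb : IsCountable 𝓜.E b) (h : ∀ x, 𝓜.E x a → 𝓜.E x b) :
    IsCountable 𝓜.E a := by
  by_cases hne : ∃ x, 𝓜.E x a
  · obtain ⟨x, hx⟩ := hne
    obtain ⟨e, he⟩ := enum_of_isCountable hb ⟨x, h x hx⟩
    refine isCountable_of_enum e fun y hy => ?_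
    obtain ⟨n, hn⟩ := he ⟨y, h y hy⟩
    exact ⟨n, by rw [hn]⟩
  · push Not at hne
    refine ⟨𝓜.om, isOmega_om, fun x => (hne x.1 x.2).elim, ?_, fun x => (hne x.1 x.2).elim⟩
    exact ⟨𝓜.em, fun z => ⟨fun hz => absurd hz (not_mem_em z), fun ⟨x, _⟩ => (hne x.1 x.2).elim⟩⟩

/-! ### Existence of `ω₁` -/

/-- `y` is the value of the function `g` at `n` -/
def InG {M : Type u} (E : M → M → Prop) (g n y : M) : Prop := ∃ q, IsPair E q n y ∧ E q g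

/-- `g` is a function from `w` onto `a` and `R` is the relation on `w` induced by membership -/
def Cod {M : Type u} (E : M → M → Prop) (w R a : M) : Prop :=
  IsOrdinal E a ∧ ∃ g, (∀ n, E n w → ∃ y, E y a ∧ ∀ y', (InG E g n y' ↔ y' = y)) ∧
    (∀ y, E y a → ∃ n, E n w ∧ InG E g n y) ∧
    ∀ z, E z R ↔ ∃ n m y y', E n w ∧ E m w ∧ InG E g n y ∧ InG E g m y' ∧ E y y' ∧ IsPair E z n m

theorem df_Cod : 𝓜.Df (n := 3) (fun v => Cod 𝓜.E (v 2) (v 1) (v 0)) := by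
  unfold Cod IsOrdinal InG
  repeat' first
    | exact dmem _ _ | exact deq _ _ | exact dpair _ _ _ | exact dbot
    | refine dall ?_ | refine dex ?_ | refine dand ?_ ?_ | refine dor ?_ ?_ | refine diff ?_ ?_
    | refine dimp ?_ ?_

/-- the typed form -/
theorem cod_iff {R a : 𝓜.M} : Cod 𝓜.E 𝓜.om R a ↔ IsOrdinal 𝓜.E a ∧
    ∃ h : IFun 𝓜 𝓜.N (El 𝓜.E a), (∀ y, ∃ n, h n = y) ∧
      ∀ z, 𝓜.E z R ↔ ∃ n m : 𝓜.N, 𝓜.E (h n).1 (h m).1 ∧ z = 𝓜.op (jn n).1 (jn m).1 := by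
  unfold Cod
  refine and_congr_right fun _ => ⟨?_, ?_⟩
  · rintro ⟨g, h1, h2, h3⟩
    have h4 : ∀ n : 𝓜.N, ∃ y : El 𝓜.E a, ∀ y', (InG 𝓜.E g (jn n).1 y' ↔ y' = y.1) := by
      intro n
      obtain ⟨y, hy, hy'⟩ := h1 (jn n).1 (jn n).2
      exact ⟨⟨y, hy⟩, hy'⟩
    choose f hf using h4
    have hfd : 𝓜.Dfn f := by
      have hg : 𝓜.Dfn (fun q : 𝓜.Om × El 𝓜.E a => 𝓜.E (𝓜.op (𝓜.code q.1) (𝓜.code q.2)) g) :=
        dfn_pair_mem g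
      let gg : ISet 𝓜 (𝓜.Om × El 𝓜.E a) := ⟨_, hg⟩
      refine Dfn.of_graph (s := fun (n : 𝓜.N) (y : El 𝓜.E a) => gg (jn n, y)) (by fun_prop)
        fun n y => ?_
      have h5 := hf n y.1
      unfold InG at h5
      simp only [isPair_iff, exists_eq_left] at h5
      refine Iff.trans h5 ⟨fun h => (Subtype.ext h).symm, fun h => by rw [h]⟩
    refine ⟨⟨f, hfd⟩, fun y => ?_, fun z => ?_⟩
    · obtain ⟨n, hn, hn'⟩ := h2 y.1 y.2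
      obtain ⟨k, hk⟩ := jn_surj ⟨n, hn⟩
      have hk' : (jn k).1 = n := congrArg Subtype.val hk
      rw [← hk', hf] at hn'
      exact ⟨k, (Subtype.ext hn').symm⟩
    · rw [h3]
      constructor
      · rintro ⟨n, m, y, y', hn, hm, hy, hy', hyy, hz⟩
        obtain ⟨k, hk⟩ := jn_surj ⟨n, hn⟩
        obtain ⟨l, hl⟩ := jn_surj ⟨m, hm⟩
        have hk' : (jn k).1 = n := congrArg Subtype.val hk
        have hl' : (jn l).1 = m := congrArg Subtype.val hl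
        rw [← hk', hf] at hy
        rw [← hl', hf] at hy'
        refine ⟨k, l, ?_, ?_⟩
        · show 𝓜.E (f k).1 (f l).1
          rw [← hy, ← hy']
          exact hyy
        · rw [isPair_iff] at hz
          rw [hz, hk', hl']
      · rintro ⟨n, m, hnm, hz⟩
        exact ⟨_, _, _, _, (jn n).2, (jn m).2, (hf n _).2 rfl, (hf m _).2 rfl, hnm,
          isPair_iff.2 hz⟩
  · rintro ⟨h, hs, hR⟩
    let k : IFun 𝓜 𝓜.Om (El 𝓜.E a) := ⟨fun x => h (nj 𝓜 x), by fun_prop⟩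
    have hg : ∀ (x : 𝓜.Om) (y : 𝓜.M), InG 𝓜.E (graph k) x.1 y ↔ y = (k x).1 := by
      intro x y
      unfold InG
      simp only [isPair_iff, exists_eq_left]
      rw [mem_graph]
      constructor
      · rintro ⟨x', hx'⟩
        rw [op_inj] at hx'
        obtain rfl := Subtype.ext hx'.1
        exact hx'.2
      · rintro rfl
        exact ⟨x, rfl⟩
    refine ⟨graph k, fun n hn => ⟨_, (k ⟨n, hn⟩).2, hg ⟨n, hn⟩⟩, fun y hy => ?_, fun z => ?_⟩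
    · obtain ⟨n, hn⟩ := hs ⟨y, hy⟩
      refine ⟨(jn n).1, (jn n).2, (hg (jn n) y).2 ?_⟩
      show y = (h (nj 𝓜 (jn n))).1
      rw [nj_jn, hn]
    · rw [hR]
      constructor
      · rintro ⟨n, m, hnm, rfl⟩
        refine ⟨_, _, (h n).1, (h m).1, (jn n).2, (jn m).2, (hg (jn n) _).2 ?_,
          (hg (jn m) _).2 ?_, hnm, isPair_iff.2 rfl⟩
        · show (h n).1 = (h (nj 𝓜 (jn n))).1
          rw [nj_jn]
        · show (h m).1 = (h (nj 𝓜 (jn m))).1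
          rw [nj_jn]
      · rintro ⟨n, m, y, y', hn, hm, hy, hy', hyy, hz⟩
        rw [hg ⟨n, hn⟩] at hy
        rw [hg ⟨m, hm⟩] at hy'
        refine ⟨nj 𝓜 ⟨n, hn⟩, nj 𝓜 ⟨m, hm⟩, ?_, ?_⟩
        · rw [hy, hy'] at hyy
          exact hyy
        · rw [isPair_iff] at hz
          rw [jn_nj, jn_nj]
          exact hz

theorem cod_unique {R a b : 𝓜.M} (ha : Cod 𝓜.E 𝓜.om R a) (hb : Cod 𝓜.E 𝓜.om R b) : a = b := by
  rw [cod_iff] at ha hb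
  obtain ⟨ha, f, hf, hfR⟩ := ha
  obtain ⟨hb, g, hg, hgR⟩ := hb
  have hRf : ∀ n m : 𝓜.N, 𝓜.E (𝓜.op (jn n).1 (jn m).1) R ↔ 𝓜.E (f n).1 (f m).1 := by
    intro n m
    rw [hfR]
    constructor
    · rintro ⟨n', m', h, h'⟩
      rw [op_inj] at h'
      rw [jn_inj h'.1, jn_inj h'.2]
      exact h
    · intro h
      exact ⟨n, m, h, rfl⟩
  have hRg : ∀ n m : 𝓜.N, 𝓜.E (𝓜.op (jn n).1 (jn m).1) R ↔ 𝓜.E (g n).1 (g m).1 := by
    intro n m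
    rw [hgR]
    constructor
    · rintro ⟨n', m', h, h'⟩
      rw [op_inj] at h'
      rw [jn_inj h'.1, jn_inj h'.2]
      exact h
    · intro h
      exact ⟨n, m, h, rfl⟩
  let ee : ISet 𝓜 (El 𝓜.E a × El 𝓜.E b) := ⟨fun q => 𝓜.code q.1 = 𝓜.code q.2, dfn_eq_code⟩
  have key : ∀ n, (f n).1 = (g n).1 := by
    by_contra hcon
    push Not at hcon
    obtain ⟨n₀, hn₀⟩ := hcon
    obtain ⟨B, hB⟩ := exists_setOf (𝓜 := 𝓜) (α := El 𝓜.E a)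
      (s := fun x => ∃ n, f n = x ∧ ¬ ee (f n, g n)) (by fun_prop)
    obtain ⟨z, hz, hz'⟩ := 𝓜.zf.found B ⟨(f n₀).1, (hB _).2 ⟨f n₀, ⟨n₀, rfl, hn₀⟩, rfl⟩⟩
    rw [hB] at hz
    obtain ⟨x, ⟨m, rfl, hm⟩, hmz⟩ := hz
    have hm' : (f m).1 = z := hmz
    apply hm
    show (f m).1 = (g m).1
    refine 𝓜.ext fun t => ⟨fun ht => ?_, fun ht => ?_⟩
    · obtain ⟨n, hn⟩ := hf ⟨t, ha.1 _ t (f m).2 ht⟩
      have hn' : (f n).1 = t := congrArg Subtype.val hn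
      have h1 : (f n).1 = (g n).1 := by
        by_contra h2
        refine hz' t (by rw [← hm']; exact ht) ((hB t).2 ⟨f n, ⟨n, rfl, h2⟩, hn'⟩)
      rw [← hn', h1]
      rw [← hn'] at ht
      exact (hRg n m).1 ((hRf n m).2 ht)
    · obtain ⟨n, hn⟩ := hg ⟨t, hb.1 _ t (g m).2 ht⟩
      have hn' : (g n).1 = t := congrArg Subtype.val hn
      rw [← hn'] at ht
      have h3 := (hRf n m).1 ((hRg n m).2 ht)
      have h1 : (f n).1 = (g n).1 := by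
        by_contra h2
        exact hz' (f n).1 (by rw [← hm']; exact h3) ((hB _).2 ⟨f n, ⟨n, rfl, h2⟩, rfl⟩)
      rw [← hn', ← h1]
      exact h3
  refine 𝓜.ext fun t => ⟨fun ht => ?_, fun ht => ?_⟩
  · obtain ⟨n, hn⟩ := hf ⟨t, ht⟩
    have hn' : (f n).1 = t := congrArg Subtype.val hn
    rw [← hn', key]
    exact (g n).2
  · obtain ⟨n, hn⟩ := hg ⟨t, ht⟩
    have hn' : (g n).1 = t := congrArg Subtype.val hn
    rw [← hn', ← key]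
    exact (f n).2

/-- every nonempty countable ordinal has a code -/
theorem exists_cod {a : 𝓜.M} (ha : IsOrdinal 𝓜.E a) (hc : IsCountable 𝓜.E a)
    (hne : ∃ x, 𝓜.E x a) : ∃ R, 𝓜.E R (𝓜.pw (𝓜.pr 𝓜.om 𝓜.om)) ∧ Cod 𝓜.E 𝓜.om R a := by
  obtain ⟨x, hx⟩ := hne
  obtain ⟨e, he⟩ := enum_of_isCountable hc ⟨x, hx⟩
  let mm : ISet 𝓜 (El 𝓜.E a × El 𝓜.E a) := ⟨fun q => 𝓜.E q.1.1 q.2.1, dfn_mem_el _ _⟩
  obtain ⟨R, hR⟩ := exists_setOf (𝓜 := 𝓜) (α := 𝓜.Om × 𝓜.Om)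
    (s := fun q => mm (e (nj 𝓜 q.1), e (nj 𝓜 q.2))) (by fun_prop)
  refine ⟨R, ?_, ?_⟩
  · rw [mem_pw]
    intro y hy
    rw [hR] at hy
    obtain ⟨⟨p, q⟩, -, rfl⟩ := hy
    exact mem_pr.2 ⟨_, _, p.2, q.2, rfl⟩
  · rw [cod_iff]
    refine ⟨ha, e, he, fun z => ?_⟩
    rw [hR]
    constructor
    · rintro ⟨⟨p, q⟩, h, rfl⟩
      refine ⟨nj 𝓜 p, nj 𝓜 q, h, ?_⟩
      rw [jn_nj, jn_nj]
      rfl
    · rintro ⟨n, m, h, rfl⟩
      refine ⟨(jn n, jn m), ?_, rfl⟩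
      show 𝓜.E (e (nj 𝓜 (jn n))).1 (e (nj 𝓜 (jn m))).1
      rw [nj_jn, nj_jn]
      exact h

theorem isCountable_of_cod {R a : 𝓜.M} (h : Cod 𝓜.E 𝓜.om R a) : IsCountable 𝓜.E a := by
  rw [cod_iff] at h
  obtain ⟨-, e, he, -⟩ := h
  refine isCountable_of_enum e fun x hx => ?_
  obtain ⟨n, hn⟩ := he ⟨x, hx⟩
  exact ⟨n, by rw [hn]⟩

theorem isOrdinal_em : IsOrdinal 𝓜.E 𝓜.em :=
  ⟨fun x _ hx => absurd hx (not_mem_em x), fun x _ hx => absurd hx (not_mem_em x)⟩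

theorem isCountable_em : IsCountable 𝓜.E 𝓜.em :=
  isCountable_subset (b := 𝓜.om) (by
    refine isCountable_of_enum (⟨fun n => jn n, by fun_prop⟩ : IFun 𝓜 𝓜.N 𝓜.Om) fun x hx => ?_
    obtain ⟨n, hn⟩ := jn_surj ⟨x, hx⟩
    exact ⟨n, congrArg Subtype.val hn⟩) fun x hx => absurd hx (not_mem_em x)

/-- the set of all countable ordinals exists -/
theorem exists_omegaOne (𝓜 : Ctx.{u}) : ∃ W, IsOmegaOne 𝓜.E W := by
  -- the set of all codes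
  obtain ⟨X, hX⟩ := 𝓜.sepD (n := 1) (P := fun v => ∃ a, Cod 𝓜.E (v 1) (v 0) a)
    (dex (Q := fun a v => Cod 𝓜.E (v 1) (v 0) a) df_Cod) ![𝓜.om]
    (𝓜.pw (𝓜.pr 𝓜.om 𝓜.om))
  have hX' : ∀ R, 𝓜.E R X ↔ 𝓜.E R (𝓜.pw (𝓜.pr 𝓜.om 𝓜.om)) ∧ ∃ a, Cod 𝓜.E 𝓜.om R a := hX
  obtain ⟨φ, hφ⟩ := df_Cod (𝓜 := 𝓜)
  obtain ⟨W₀, hW₀⟩ := 𝓜.zf.repl 1 φ ![𝓜.om] X (by
    intro R hR
    obtain ⟨-, a, ha⟩ := (hX' R).1 hR
    refine ⟨a, (hφ _).2 ha, fun b hb => ?_⟩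
    exact cod_unique ((hφ _).1 hb) ha)
  have hW₀' : ∀ a, 𝓜.E a W₀ ↔ ∃ R, 𝓜.E R X ∧ Cod 𝓜.E 𝓜.om R a := by
    intro a
    rw [hW₀]
    exact exists_congr fun R => and_congr_right fun _ => hφ _
  refine ⟨𝓜.un (𝓜.up W₀ (𝓜.up 𝓜.em 𝓜.em)), fun a => ?_⟩
  rw [mem_un]
  constructor
  · rintro ⟨y, hy, hay⟩
    rw [mem_up] at hy
    rcases hy with rfl | rfl
    · obtain ⟨R, hR, h⟩ := (hW₀' a).1 hay
      exact ⟨h.1, isCountable_of_cod h⟩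
    · rw [mem_up, or_self] at hay
      subst hay
      exact ⟨isOrdinal_em, isCountable_em⟩
  · rintro ⟨ha, hc⟩
    by_cases hne : ∃ x, 𝓜.E x a
    · refine ⟨W₀, by simp, (hW₀' a).2 ?_⟩
      obtain ⟨R, hR, h⟩ := exists_cod ha hc hne
      exact ⟨R, (hX' R).2 ⟨hR, a, h⟩, h⟩
    · push Not at hne
      refine ⟨_, (mem_up _ _ _).2 (Or.inr rfl), ?_⟩
      rw [mem_up]
      exact Or.inl (eq_em hne)

end Pool.Agent.Lib.MP_0baed1_lc
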