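import Pool.Agent.Lib.MP_0baed1_lc.Omega1

/-!
# The first uncountable ordinal as a represented type
-/

namespace Pool.Agent.Lib.MP_0baed1_lc

open Pool.Agent.Lib.MP_c7a422_lc.Z Pool.Agent.Lib.MP_c7a422_lc.Z.Ctx

universe u v w

variable {𝓜 : Ctx.{u}}

/-- the membership relation between elements of a set -/
def ml (W : 𝓜.M) : ISet 𝓜 (El 𝓜.E W × El 𝓜.E W) := ⟨fun q => 𝓜.E q.1.1 q.2.1, dfn_mem_el _ _⟩

theorem ml_apply {W : 𝓜.M} (a b : El 𝓜.E W) : ml W (a, b) ↔ 𝓜.E a.1 b.1 := Iff.rfl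

/-- least elements, by foundation -/
theorem ml_least (W : 𝓜.M) {P : El 𝓜.E W → Prop} (hP : 𝓜.Dfn P) (h : ∃ x, P x) :
    ∃ x, P x ∧ ∀ y, P y → ¬ ml W (y, x) := by
  obtain ⟨B, hB⟩ := exists_setOf (𝓜 := 𝓜) (α := El 𝓜.E W) hP
  obtain ⟨x, hx⟩ := h
  obtain ⟨z, hz, hz'⟩ := 𝓜.zf.found B ⟨x.1, (hB _).2 ⟨x, hx, rfl⟩⟩
  obtain ⟨a, ha, ha'⟩ := (hB z).1 hz
  refine ⟨a, ha, fun y hy hya => ?_⟩
  have h1 : 𝓜.E y.1 a.1 := hya
  have h2 : a.1 = z := ha'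
  rw [h2] at h1
  exact hz' y.1 h1 ((hB _).2 ⟨y, hy, rfl⟩)

/-- induction -/
theorem ml_ind (W : 𝓜.M) {P : El 𝓜.E W → Prop} (hP : 𝓜.Dfn P)
    (h : ∀ x, (∀ y, ml W (y, x) → P y) → P x) (x : El 𝓜.E W) : P x := by
  by_contra hx
  obtain ⟨y, hy, hy'⟩ := ml_least W (P := fun x => ¬ P x) hP.not ⟨x, hx⟩
  refine hy (h y fun z hz => ?_)
  by_contra hz'
  exact hy' z hz' hz

section omegaOne

variable {W : 𝓜.M} (hW : IsOmegaOne 𝓜.E W)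
include hW

theorem w1_mem {a b : 𝓜.M} (ha : 𝓜.E a W) (hb : 𝓜.E b a) : 𝓜.E b W := by
  obtain ⟨h1, h2⟩ := (hW a).1 ha
  exact (hW b).2 ⟨h1.mem hb, isCountable_subset h2 fun x hx => h1.1 b x hb hx⟩

theorem w1_total (a b : El 𝓜.E W) : ml W (a, b) ∨ a = b ∨ ml W (b, a) := by
  rcases ((hW _).1 a.2).1.total ((hW _).1 b.2).1 with h | h | h
  · exact Or.inl h
  · exact Or.inr (Or.inl (Subtype.ext h))
  · exact Or.inr (Or.inr h)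

theorem w1_isOrdinal : IsOrdinal 𝓜.E W :=
  ⟨fun _ _ hx hy => w1_mem hW hx hy, fun x y hx hy => by
    rcases w1_total hW ⟨x, hx⟩ ⟨y, hy⟩ with h | h | h
    · exact Or.inl h
    · exact Or.inr (Or.inl (congrArg Subtype.val h))
    · exact Or.inr (Or.inr h)⟩

theorem w1_not_countable : ¬ IsCountable 𝓜.E W := fun h =>
  not_mem_self W ((hW W).2 ⟨w1_isOrdinal hW, h⟩)

theorem w1_trans {a b c : El 𝓜.E W} (h1 : ml W (a, b)) (h2 : ml W (b, c)) : ml W (a, c) :=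
  ((hW _).1 c.2).1.1 b.1 a.1 h2 h1

theorem w1_isWO : IsWO (univ : ISet 𝓜 (El 𝓜.E W)) (ml W) where
  irrefl x _ := fun h => not_mem_self x.1 h
  trans _ _ _ _ _ _ h1 h2 := w1_trans hW h1 h2
  total a b _ _ := w1_total hW a b
  least s _ hs := ml_least W (ifun_dfn s) hs

theorem w1_zero : 𝓜.E 𝓜.em W := (hW _).2 ⟨isOrdinal_em, isCountable_em⟩

/-- initial segments are countable -/
theorem w1_enum (a : El 𝓜.E W) :
    ∃ e : IFun 𝓜 𝓜.N (El 𝓜.E W), ∀ b, ml W (b, a) → ∃ n, e n = b := by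
  by_cases hne : ∃ x, 𝓜.E x a.1
  · obtain ⟨x, hx⟩ := hne
    obtain ⟨e, he⟩ := enum_of_isCountable ((hW _).1 a.2).2 ⟨x, hx⟩
    have hmem : ∀ y : El 𝓜.E a.1, 𝓜.E y.1 W := fun y => w1_mem hW a.2 y.2
    have hi : 𝓜.Dfn (fun y : El 𝓜.E a.1 => (⟨y.1, hmem y⟩ : El 𝓜.E W)) :=
      CodeMap.dfn (fun _ => rfl)
    refine ⟨⟨fun n => ⟨(e n).1, hmem (e n)⟩, dfn_comp hi (ifun_dfn e)⟩, fun b hb => ?_⟩
    obtain ⟨n, hn⟩ := he ⟨b.1, hb⟩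
    refine ⟨n, Subtype.ext ?_⟩
    show (e n).1 = b.1
    rw [hn]
  · push Not at hne
    exact ⟨⟨fun _ => a, by fun_prop⟩, fun b hb => absurd hb (hne b.1)⟩

/-- countable sets of countable ordinals are bounded -/
theorem w1_sup (hCC : TCC 𝓜) (b : IFun 𝓜 𝓜.N (El 𝓜.E W)) : ∃ a, ∀ n, ml W (b n, a) := by
  have h1 : ∀ n, ∃ e : IFun 𝓜 𝓜.N (El 𝓜.E W), ∀ x, ml W (x, b n) → ∃ k, e k = x :=
    fun n => w1_enum hW (b n)
  obtain ⟨f, hf⟩ := hCC (IFun 𝓜 𝓜.N (El 𝓜.E W)) ⟨fun q => ∀ x, ml W (x, b q.1) → ∃ k, q.2 k = x,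
    by simp only [al_iff, imp_iff_not_or]; fun_prop⟩ h1
  -- the set of all ordinals below or equal to some `b n`
  obtain ⟨U, hU⟩ := exists_setOf (𝓜 := 𝓜) (α := El 𝓜.E W)
    (s := fun x => ∃ n, x = b n ∨ ml W (x, b n)) (by fun_prop)
  have hUW : ∀ x, 𝓜.E x U → 𝓜.E x W := by
    intro x hx
    obtain ⟨a, -, rfl⟩ := (hU x).1 hx
    exact a.2
  have hUo : IsOrdinal 𝓜.E U := by
    refine ⟨fun x y hx hy => ?_, fun x y hx hy => (w1_isOrdinal hW).2 x y (hUW x hx) (hUW y hy)⟩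
    obtain ⟨a, ⟨n, hn⟩, rfl⟩ := (hU x).1 hx
    have hy' : 𝓜.E y a.1 := hy
    refine (hU y).2 ⟨⟨y, w1_mem hW a.2 hy'⟩, ⟨n, Or.inr ?_⟩, rfl⟩
    rcases hn with rfl | hn
    · exact hy'
    · exact w1_trans hW (b := a) hy' hn
  have hUc : IsCountable 𝓜.E U := by
    classical
    refine isCountable_of_enum (V := W) ⟨fun m => if p1 𝓜 m = 0 then b (p2 𝓜 m) else
      f (p1 𝓜 (p2 𝓜 m)) (p2 𝓜 (p2 𝓜 m)), by fun_prop⟩ fun x hx => ?_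
    obtain ⟨a, ⟨n, hn⟩, rfl⟩ := (hU x).1 hx
    rcases hn with rfl | hn
    · refine ⟨pairN 0 n, ?_⟩
      show (if p1 𝓜 (pairN 0 n) = 0 then b (p2 𝓜 (pairN 0 n)) else _).1 = _
      rw [p1_pairN, p2_pairN, if_pos rfl]
      rfl
    · obtain ⟨k, hk⟩ := hf n a hn
      refine ⟨pairN 1 (pairN n k), ?_⟩
      show (if p1 𝓜 (pairN 1 (pairN n k)) = 0 then _ else
        f (p1 𝓜 (p2 𝓜 (pairN 1 (pairN n k)))) (p2 𝓜 (p2 𝓜 (pairN 1 (pairN n k))))).1 = _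
      have h10 : (1 : 𝓜.N) ≠ 0 := by
        have := N_add_one_ne_zero (0 : 𝓜.N)
        rwa [zero_add] at this
      rw [p1_pairN, p2_pairN, p1_pairN, p2_pairN, if_neg h10]
      have hk' : f n k = a := hk
      rw [hk']
      rfl
  refine ⟨⟨U, (hW U).2 ⟨hUo, hUc⟩⟩, fun n => ?_⟩
  exact (hU _).2 ⟨b n, ⟨n, Or.inl rfl⟩, rfl⟩

end omegaOne

end Pool.Agent.Lib.MP_0baed1_lc
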