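import Pool.Agent.Lib.MP_0baed1_lc.Omega1T

/-!
# The diagonal coanalytic set is a union of `ℵ₁` Borel sets
-/

namespace Pool.Agent.Lib.MP_0baed1_lc

open Pool.Agent.Lib.MP_c7a422_lc.Z Pool.Agent.Lib.MP_c7a422_lc.Z.Ctx

universe u v w

variable {𝓜 : Ctx.{u}}

/-! ### Ranks -/

/-- the node `s` of length `n` belongs to the tree of `x` -/
def GG (x : Bai 𝓜) (n s : 𝓜.N) : Prop := x (pairN n (pairN s (cd x n))) = 0

@[fun_prop]
theorem dfn_GG {γ : Type*} [Rep 𝓜 γ] {x : γ → Bai 𝓜} {n s : γ → 𝓜.N} (hx : 𝓜.Dfn x)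
    (hn : 𝓜.Dfn n) (hs : 𝓜.Dfn s) : 𝓜.Dfn (fun c => GG (x c) (n c) (s c)) := by
  unfold GG
  fun_prop

theorem inU_iff (x : Bai 𝓜) : InU x x ↔ ∃ z : Bai 𝓜, ∀ n, GG x n (cd z n) := Iff.rfl

variable (W : 𝓜.M)

/-- closed sets of ranks -/
def ClosedR (K : ISet 𝓜 (Bai 𝓜 × (𝓜.N × (𝓜.N × El 𝓜.E W)))) : Prop :=
  ∀ x n s α, (¬ GG x n s ∨ ∀ i, ∃ β, ml W (β, α) ∧ K (x, (n + 1, (pairN s i + 1, β)))) →
    K (x, (n, (s, α)))

/-- the rank of the node `s` of length `n` in the tree of `x` is at most `α` -/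
def Rk (x : Bai 𝓜) (n s : 𝓜.N) (α : El 𝓜.E W) : Prop :=
  ∀ K : ISet 𝓜 (Bai 𝓜 × (𝓜.N × (𝓜.N × El 𝓜.E W))), ClosedR W K → K (x, (n, (s, α)))

@[fun_prop]
theorem dfn_closedR {γ : Type*} [Rep 𝓜 γ] {K : γ → ISet 𝓜 (Bai 𝓜 × (𝓜.N × (𝓜.N × El 𝓜.E W)))}
    (hK : 𝓜.Dfn K) : 𝓜.Dfn (fun c => ClosedR W (K c)) := by
  unfold ClosedR
  simp only [al_iff, imp_iff_not_or]
  fun_prop

@[fun_prop]
theorem dfn_Rk {γ : Type*} [Rep 𝓜 γ] {x : γ → Bai 𝓜} {n s : γ → 𝓜.N} {α : γ → El 𝓜.E W}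
    (hx : 𝓜.Dfn x) (hn : 𝓜.Dfn n) (hs : 𝓜.Dfn s) (hα : 𝓜.Dfn α) :
    𝓜.Dfn (fun c => Rk W (x c) (n c) (s c) (α c)) := by
  unfold Rk
  simp only [al_iff, imp_iff_not_or]
  fun_prop

theorem rk_iff (x : Bai 𝓜) (n s : 𝓜.N) (α : El 𝓜.E W) :
    Rk W x n s α ↔ ¬ GG x n s ∨ ∀ i, ∃ β, ml W (β, α) ∧ Rk W x (n + 1) (pairN s i + 1) β := by
  have h1 : ∀ x n s α, (¬ GG x n s ∨ ∀ i, ∃ β, ml W (β, α) ∧
      Rk W x (n + 1) (pairN s i + 1) β) → Rk W x n s α := by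
    intro x n s α h K hK
    refine hK x n s α ?_
    rcases h with h | h
    · exact Or.inl h
    · right
      intro i
      obtain ⟨β, hβ, h'⟩ := h i
      exact ⟨β, hβ, h' K hK⟩
  refine ⟨fun h => ?_, h1 x n s α⟩
  exact h ⟨fun p => ¬ GG p.1 p.2.1 p.2.2.1 ∨ ∀ i, ∃ β, ml W (β, p.2.2.2) ∧
    Rk W p.1 (p.2.1 + 1) (pairN p.2.2.1 i + 1) β, by simp only [al_iff]; fun_prop⟩ (by
      intro x n s α h'
      rcases h' with h' | h'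
      · exact Or.inl h'
      · right
        intro i
        obtain ⟨β, hβ, h''⟩ := h' i
        exact ⟨β, hβ, h1 _ _ _ _ h''⟩)

section omegaOne

variable {W}
variable (hW : IsOmegaOne 𝓜.E W)
include hW

theorem ss_iff (hCC : TCC 𝓜) (x : Bai 𝓜) : SS 𝓜 x ↔ ∃ α, Rk W x 0 0 α := by
  rw [SS_apply, inU_iff]
  constructor
  · intro h
    by_contra hcon
    apply h
    -- nodes without rank have children without rank
    have step : ∀ n s, (¬ ∃ α, Rk W x n s α) →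
        GG x n s ∧ ∃ i, ¬ ∃ α, Rk W x (n + 1) (pairN s i + 1) α := by
      intro n s hns
      have hG : GG x n s := by
        by_contra hG
        exact hns ⟨⟨𝓜.em, w1_zero hW⟩, (rk_iff W x n s _).2 (Or.inl hG)⟩
      refine ⟨hG, ?_⟩
      by_contra h'
      push Not at h'
      obtain ⟨f, hf⟩ := hCC (El 𝓜.E W)
        ⟨fun q => Rk W x (n + 1) (pairN s q.1 + 1) q.2, by fun_prop⟩ h'
      obtain ⟨α, hα⟩ := w1_sup hW hCC f
      exact hns ⟨α, (rk_iff W x n s α).2 (Or.inr fun i => ⟨f i, hα i, hf i⟩)⟩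
    obtain ⟨f, hf⟩ := hCC 𝓜.N ⟨fun q => (¬ ∃ α, Rk W x (p1 𝓜 q.1) (p2 𝓜 q.1) α) →
      ¬ ∃ α, Rk W x (p1 𝓜 q.1 + 1) (pairN (p2 𝓜 q.1) q.2 + 1) α, by
        simp only [imp_iff_not_or]; fun_prop⟩ (by
        intro m
        by_cases hm : ¬ ∃ α, Rk W x (p1 𝓜 m) (p2 𝓜 m) α
        · obtain ⟨-, i, hi⟩ := step _ _ hm
          exact ⟨i, fun _ => hi⟩
        · exact ⟨0, fun h => absurd h hm⟩)
    have hf' : ∀ n s, (¬ ∃ α, Rk W x n s α) →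
        ¬ ∃ α, Rk W x (n + 1) (pairN s (f (pairN n s)) + 1) α := by
      intro n s hns
      have h1 := hf (pairN n s)
      change (¬ ∃ α, Rk W x (p1 𝓜 (pairN n s)) (p2 𝓜 (pairN n s)) α) →
        ¬ ∃ α, Rk W x (p1 𝓜 (pairN n s) + 1)
          (pairN (p2 𝓜 (pairN n s)) (f (pairN n s)) + 1) α at h1
      rw [p1_pairN, p2_pairN] at h1
      exact h1 hns
    let g : IFun 𝓜 (𝓜.N × 𝓜.N) 𝓜.N := ⟨fun p => pairN p.2 (f (pairN p.1 p.2)) + 1, by fun_prop⟩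
    have hst : 𝓜.Dfn (fun n => nrec (0 : 𝓜.N) g n) := by fun_prop
    let z : Bai 𝓜 := ⟨fun n => f (pairN n (nrec (0 : 𝓜.N) g n)), by fun_prop⟩
    have hz : ∀ n, cd z n = nrec (0 : 𝓜.N) g n := by
      refine ind (P := fun n => cd z n = nrec (0 : 𝓜.N) g n) (by fun_prop) ?_ fun n ih => ?_
      · rw [cd_zero, nrec_zero]
      · rw [cd_succ, nrec_succ, ih]
        rfl
    have hbad : ∀ n, ¬ ∃ α, Rk W x n (cd z n) α := by
      refine ind (P := fun n => ¬ ∃ α, Rk W x n (cd z n) α) (by fun_prop) ?_ fun n ih => ?_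
      · rw [cd_zero]
        exact hcon
      · have h1 := hf' n _ ih
        rw [cd_succ]
        have h2 : z n = f (pairN n (cd z n)) := by
          rw [hz]
          rfl
        rw [h2]
        exact h1
    exact ⟨z, fun n => (step _ _ (hbad n)).1⟩
  · rintro ⟨α, hα⟩ ⟨z, hz⟩
    obtain ⟨β, ⟨n, hn⟩, hβ⟩ := ml_least W (P := fun β => ∃ n, Rk W x n (cd z n) β)
      (by fun_prop) ⟨α, 0, by rw [cd_zero]; exact hα⟩
    rcases (rk_iff W x n _ β).1 hn with h | h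
    · exact h (hz n)
    · obtain ⟨δ, hδ, h'⟩ := h (z n)
      refine hβ δ ⟨n + 1, ?_⟩ hδ
      rw [cd_succ]
      exact h'

end omegaOne

/-! ### Borel sets -/

/-- `O` is an open set of the Baire space -/
def TOpen (O : ISet 𝓜 (Bai 𝓜)) : Prop := ∀ x, O x → ∃ n, ∀ y, (∀ k, k < n → x k = y k) → O y

/-- the complement -/
def cpl {α : Type*} [Rep 𝓜 α] (A : ISet 𝓜 α) : ISet 𝓜 α := ⟨fun x => ¬ A x, by fun_prop⟩

/-- the union of a sequence -/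
def iun {α : Type*} [Rep 𝓜 α] (s : IFun 𝓜 𝓜.N (ISet 𝓜 α)) : ISet 𝓜 α :=
  ⟨fun x => ∃ n, s n x, by fun_prop⟩

@[fun_prop]
theorem dfn_TOpen {γ : Type*} [Rep 𝓜 γ] {O : γ → ISet 𝓜 (Bai 𝓜)} (hO : 𝓜.Dfn O) :
    𝓜.Dfn (fun c => TOpen (O c)) := by
  unfold TOpen
  simp only [al_iff, imp_iff_not_or]
  fun_prop

@[fun_prop]
theorem dfn_cpl {γ α : Type*} [Rep 𝓜 γ] [Rep 𝓜 α] {O : γ → ISet 𝓜 α} (hO : 𝓜.Dfn O) :
    𝓜.Dfn (fun c => cpl (O c)) := by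
  unfold cpl
  fun_prop

@[fun_prop]
theorem dfn_iun {γ α : Type*} [Rep 𝓜 γ] [Rep 𝓜 α] {s : γ → IFun 𝓜 𝓜.N (ISet 𝓜 α)}
    (hs : 𝓜.Dfn s) : 𝓜.Dfn (fun c => iun (s c)) := by
  unfold iun
  fun_prop

/-- `A` is a Borel set of the Baire space -/
def TBorel (A : ISet 𝓜 (Bai 𝓜)) : Prop :=
  ∀ K : ISet 𝓜 (ISet 𝓜 (Bai 𝓜)), (∀ O, TOpen O → K O) → (∀ A, K A → K (cpl A)) →
    (∀ s : IFun 𝓜 𝓜.N (ISet 𝓜 (Bai 𝓜)), (∀ n, K (s n)) → K (iun s)) → K A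

@[fun_prop]
theorem dfn_TBorel {γ : Type*} [Rep 𝓜 γ] {A : γ → ISet 𝓜 (Bai 𝓜)} (hA : 𝓜.Dfn A) :
    𝓜.Dfn (fun c => TBorel (A c)) := by
  unfold TBorel
  simp only [al_iff, imp_iff_not_or]
  fun_prop

theorem TOpen.borel {O : ISet 𝓜 (Bai 𝓜)} (h : TOpen O) : TBorel O := fun _ h1 _ _ => h1 O h

theorem TBorel.cpl {A : ISet 𝓜 (Bai 𝓜)} (h : TBorel A) : TBorel (cpl A) :=
  fun K h1 h2 h3 => h2 A (h K h1 h2 h3)

theorem TBorel.iun {s : IFun 𝓜 𝓜.N (ISet 𝓜 (Bai 𝓜))} (h : ∀ n, TBorel (s n)) : TBorel (iun s) :=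
  fun K h1 h2 h3 => h3 s fun n => h n K h1 h2 h3

theorem TBorel.congr {A B : ISet 𝓜 (Bai 𝓜)} (h : TBorel A) (e : ∀ x, A x ↔ B x) : TBorel B := by
  have : A = B := by
    ext x
    exact e x
  rwa [← this]

theorem TBorel.union {A B : ISet 𝓜 (Bai 𝓜)} (hA : TBorel A) (hB : TBorel B) :
    TBorel (⟨fun x => A x ∨ B x, by fun_prop⟩ : ISet 𝓜 (Bai 𝓜)) := by
  classical
  refine (TBorel.iun (s := ⟨fun n => if n = 0 then A else B, by fun_prop⟩) fun n => ?_).congr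
    fun x => ?_
  · show TBorel (if n = 0 then A else B)
    split_ifs
    · exact hA
    · exact hB
  · constructor
    · rintro ⟨n, hn⟩
      change (if n = 0 then A else B) x at hn
      split_ifs at hn
      · exact Or.inl hn
      · exact Or.inr hn
    · rintro (h | h)
      · refine ⟨0, ?_⟩
        show (if (0 : 𝓜.N) = 0 then A else B) x
        rw [if_pos rfl]
        exact h
      · refine ⟨0 + 1, ?_⟩
        show (if (0 : 𝓜.N) + 1 = 0 then A else B) x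
        rw [if_neg (N_add_one_ne_zero 0)]
        exact h

theorem TBorel.iinter {s : IFun 𝓜 𝓜.N (ISet 𝓜 (Bai 𝓜))} (h : ∀ n, TBorel (s n)) :
    TBorel (⟨fun x => ∀ n, s n x, by simp only [al_iff]; fun_prop⟩ : ISet 𝓜 (Bai 𝓜)) := by
  refine ((TBorel.iun (s := ⟨fun n => MP_0baed1_lc.cpl (s n), by fun_prop⟩)
    fun n => (h n).cpl).cpl).congr fun x => ?_
  show (¬ ∃ n, ¬ s n x) ↔ ∀ n, s n x
  simp only [not_exists, not_not]

theorem tborel_GG (n s : 𝓜.N) :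
    TBorel (⟨fun x => ¬ GG x n s, by fun_prop⟩ : ISet 𝓜 (Bai 𝓜)) := by
  refine TOpen.borel fun x hx => ?_
  refine ⟨max n (pairN n (pairN s (cd x n)) + 1), fun y hy hG => hx ?_⟩
  have h1 : cd y n = cd x n := cd_congr fun k hk => (hy k (lt_of_lt_of_le hk (le_max_left _ _))).symm
  unfold GG at hG ⊢
  rw [h1] at hG
  rw [hy _ (lt_of_lt_of_le (by simp) (le_max_right _ _))]
  exact hG

section omegaOne

variable {W}
variable (hW : IsOmegaOne 𝓜.E W)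
include hW

theorem tborel_rk (α : El 𝓜.E W) :
    ∀ n s, TBorel (⟨fun x => Rk W x n s α, by fun_prop⟩ : ISet 𝓜 (Bai 𝓜)) := by
  classical
  refine ml_ind W (P := fun α => ∀ n s, TBorel (⟨fun x => Rk W x n s α, by fun_prop⟩ :
    ISet 𝓜 (Bai 𝓜))) (by simp only [al_iff]; fun_prop) (fun α ih n s => ?_) α
  obtain ⟨e, he⟩ := w1_enum hW α
  let T : IFun 𝓜 (𝓜.N × 𝓜.N) (ISet 𝓜 (Bai 𝓜)) :=
    ⟨fun q => ⟨fun x => ml W (e q.2, α) ∧ Rk W x (n + 1) (pairN s q.1 + 1) (e q.2), by fun_prop⟩,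
      by fun_prop⟩
  have hT : ∀ i k, TBorel (T (i, k)) := by
    intro i k
    by_cases hk : ml W (e k, α)
    · refine (ih (e k) hk (n + 1) (pairN s i + 1)).congr fun x => ?_
      exact ⟨fun h => ⟨hk, h⟩, fun h => h.2⟩
    · refine TOpen.borel fun x hx => ?_
      exact absurd hx.1 hk
  have h1 : ∀ i, TBorel (iun (⟨fun k => T (i, k), by fun_prop⟩ : IFun 𝓜 𝓜.N (ISet 𝓜 (Bai 𝓜)))) :=
    fun i => TBorel.iun fun k => hT i k
  have h2 := TBorel.iinter (s := ⟨fun i => iun (⟨fun k => T (i, k), by fun_prop⟩ :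
    IFun 𝓜 𝓜.N (ISet 𝓜 (Bai 𝓜))), by fun_prop⟩) h1
  refine ((tborel_GG n s).union h2).congr fun x => ?_
  show (¬ GG x n s ∨ ∀ i, ∃ k, ml W (e k, α) ∧ Rk W x (n + 1) (pairN s i + 1) (e k)) ↔
    Rk W x n s α
  rw [rk_iff]
  refine or_congr_right (forall_congr' fun i => ⟨?_, ?_⟩)
  · rintro ⟨k, hk, hk'⟩
    exact ⟨e k, hk, hk'⟩
  · rintro ⟨β, hβ, hβ'⟩
    obtain ⟨k, rfl⟩ := he β hβ
    exact ⟨k, hβ, hβ'⟩

end omegaOne

end Pool.Agent.Lib.MP_0baed1_lc
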