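import Pool.Agent.Lib.MP_0baed1_lc.BaireSp

/-!
# Metrizable and Polish spaces of the model, in typed form
-/

namespace Pool.Agent.Lib.MP_0baed1_lc

open Pool.Agent.Lib.MP_c7a422_lc.Z Pool.Agent.Lib.MP_c7a422_lc.Z.Ctx

universe u v w

variable {𝓜 : Ctx.{u}}

/-- `O` is an open subset of `X` for the typed metric `ρ` -/
def OpenF {X : 𝓜.M} (ρ : IFun 𝓜 (El 𝓜.E X × El 𝓜.E X) 𝓜.R) (O : 𝓜.M) : Prop :=
  (∀ x, 𝓜.E x O → 𝓜.E x X) ∧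
    ∀ x : El 𝓜.E X, 𝓜.E x.1 O → ∃ ε > 0, ∀ y : El 𝓜.E X, ρ (x, y) < ε → 𝓜.E y.1 O

theorem completelyMetrizable_iff {X t : 𝓜.M} : CompletelyMetrizable 𝓜.rl X t ↔
    ∃ ρ : IFun 𝓜 (El 𝓜.E X × El 𝓜.E X) 𝓜.R, MetOn univ ρ ∧ Complete univ ρ ∧
      ∀ O, 𝓜.E O t ↔ OpenF ρ O := by
  constructor
  · rintro ⟨d, hd, hc, ht⟩
    have hdd : 𝓜.Dfn (fun p : El 𝓜.E X × El 𝓜.E X => (d p.1 p.2 : 𝓜.R)) := fun2_iff.1 hd.mem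
    refine ⟨⟨_, hdd⟩, ?_, ?_, ht⟩
    · refine ⟨⟨fun x _ => ?_, fun x y _ _ => ?_, fun x y z _ _ _ => ?_⟩, fun x y _ _ h => ?_⟩
      · exact (hd.eq_zero x x).2 rfl
      · exact hd.symm x y
      · exact hd.triangle x y z
      · exact (hd.eq_zero x y).1 h
    · intro a _ ha
      obtain ⟨x, hx⟩ := hc 𝓜.om (fun n => a (nj 𝓜 n)) isOmega_om (fun1_iff.2 (by fun_prop))
        (fun (ε : 𝓜.R) (hε : 0 < ε) => by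
          obtain ⟨n, hn⟩ := ha (ε / 2 : 𝓜.R) (half_pos hε)
          refine ⟨jn n, fun k m hk hm => ?_⟩
          obtain ⟨k, rfl⟩ := jn_surj k
          obtain ⟨m, rfl⟩ := jn_surj m
          rw [leNat_iff] at hk hm
          rw [nj_jn, nj_jn]
          exact lt_of_le_of_lt (hn k m hk hm) (half_lt_self hε))
      refine ⟨x, trivial, fun ε hε => ?_⟩
      obtain ⟨n, hn⟩ := hx ε hε
      obtain ⟨n, rfl⟩ := jn_surj n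
      refine ⟨n, fun m hm => ?_⟩
      have h1 := hn (jn m) (leNat_iff.2 hm)
      rw [nj_jn] at h1
      exact h1.le
  · rintro ⟨ρ, hρ, hc, ht⟩
    refine ⟨fun x y => ρ (x, y), ⟨fun2_iff.2
      (show 𝓜.Dfn (fun p : El 𝓜.E X × El 𝓜.E X => (ρ (p.1, p.2) : 𝓜.R)) by fun_prop),
      fun x y => ⟨fun h => ?_, ?_⟩,
      fun x y => ?_, fun x y z => ?_⟩, ?_, ht⟩
    · exact hρ.sep x y trivial trivial h
    · rintro rfl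
      exact hρ.self x trivial
    · exact hρ.symm x y trivial trivial
    · exact hρ.tri x y z trivial trivial trivial
    · intro w s hw hs ha
      rw [isOmega_iff] at hw
      subst hw
      rw [fun1_iff] at hs
      obtain ⟨x, -, hx⟩ := hc ⟨fun n => s (jn n), by fun_prop⟩ (fun _ => trivial) (fun ε hε => by
        obtain ⟨n, hn⟩ := ha ε hε
        obtain ⟨n, rfl⟩ := jn_surj n
        refine ⟨n, fun k m hk hm => ?_⟩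
        exact (hn (jn k) (jn m) (leNat_iff.2 hk) (leNat_iff.2 hm)).le)
      refine ⟨x, fun (ε : 𝓜.R) (hε : 0 < ε) => ?_⟩
      obtain ⟨n, hn⟩ := hx (ε / 2 : 𝓜.R) (half_pos hε)
      refine ⟨jn n, fun k hk => ?_⟩
      obtain ⟨k, rfl⟩ := jn_surj k
      rw [leNat_iff] at hk
      exact lt_of_le_of_lt (hn k hk) (half_lt_self hε)

/-- the set of all open sets -/
theorem exists_topology {X : 𝓜.M} (ρ : IFun 𝓜 (El 𝓜.E X × El 𝓜.E X) 𝓜.R) :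
    ∃ t, ∀ O, 𝓜.E O t ↔ OpenF ρ O := by
  let mm : ISet 𝓜 (El 𝓜.E X × El 𝓜.E (𝓜.pw X)) := ⟨fun q => 𝓜.E q.1.1 q.2.1, dfn_mem_el _ _⟩
  obtain ⟨t, ht⟩ := exists_setOf (𝓜 := 𝓜) (α := El 𝓜.E (𝓜.pw X))
    (s := fun O => ∀ x : El 𝓜.E X, mm (x, O) → ∃ ε : 𝓜.R, 0 < ε ∧ ∀ y : El 𝓜.E X,
      ρ (x, y) < ε → mm (y, O)) (by simp only [al_iff, imp_iff_not_or]; fun_prop)
  refine ⟨t, fun O => ?_⟩
  rw [ht]
  constructor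
  · rintro ⟨O', hO', rfl⟩
    exact ⟨fun x hx => mem_pw.1 O'.2 x hx, fun x hx => hO' x hx⟩
  · rintro ⟨h1, h2⟩
    exact ⟨⟨O, mem_pw.2 h1⟩, fun x hx => h2 x hx, rfl⟩

/-- sets of the model given by internal sets of elements of `X` -/
theorem exists_sub {X : 𝓜.M} {P : El 𝓜.E X → Prop} (hP : 𝓜.Dfn P) :
    ∃ O, (∀ x, 𝓜.E x O → 𝓜.E x X) ∧ ∀ x : El 𝓜.E X, 𝓜.E x.1 O ↔ P x := by
  obtain ⟨O, hO⟩ := exists_setOf hP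
  refine ⟨O, fun x hx => ?_, fun x => ?_⟩
  · obtain ⟨a, -, rfl⟩ := (hO x).1 hx
    exact a.2
  · rw [hO]
    constructor
    · rintro ⟨a, ha, h⟩
      rwa [← show a = x from Subtype.ext h]
    · intro h
      exact ⟨x, h, rfl⟩

theorem isSeparable_of_seq {X t : 𝓜.M} {ρ : IFun 𝓜 (El 𝓜.E X × El 𝓜.E X) 𝓜.R}
    (ht : ∀ O, 𝓜.E O t ↔ OpenF ρ O) (e : IFun 𝓜 𝓜.N (El 𝓜.E X))
    (he : ∀ x, ∀ ε > 0, ∃ n, ρ (x, e n) < ε) : IsSeparable 𝓜.E X t := by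
  obtain ⟨D, hD, hD'⟩ := exists_sub (X := X) (P := fun x => ∃ n, e n = x) (by fun_prop)
  refine ⟨D, isCountable_of_enum e fun x hx => ?_, hD, fun O hO hne => ?_⟩
  · obtain ⟨n, hn⟩ := (hD' ⟨x, hD x hx⟩).1 hx
    exact ⟨n, by rw [hn]⟩
  · rw [ht] at hO
    obtain ⟨x, hx⟩ := hne
    obtain ⟨ε, hε, h⟩ := hO.2 ⟨x, hO.1 x hx⟩ hx
    obtain ⟨n, hn⟩ := he ⟨x, hO.1 x hx⟩ ε hε
    exact ⟨(e n).1, (hD' (e n)).2 ⟨n, rfl⟩, h _ hn⟩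

theorem openF_ball {X : 𝓜.M} {ρ : IFun 𝓜 (El 𝓜.E X × El 𝓜.E X) 𝓜.R} (hρ : MetOn univ ρ)
    (x : El 𝓜.E X) (ε : 𝓜.R) : ∃ O, OpenF ρ O ∧ ∀ y : El 𝓜.E X, 𝓜.E y.1 O ↔ ρ (x, y) < ε := by
  obtain ⟨O, hO, hO'⟩ := exists_sub (X := X) (P := fun y => ρ (x, y) < ε) (by fun_prop)
  refine ⟨O, ⟨hO, fun y hy => ?_⟩, hO'⟩
  rw [hO'] at hy
  refine ⟨ε - ρ (x, y), sub_pos.2 hy, fun z hz => (hO' z).2 ?_⟩
  have := hρ.tri x y z trivial trivial trivial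
  linarith

theorem exists_seq_of_isSeparable {X t : 𝓜.M} {ρ : IFun 𝓜 (El 𝓜.E X × El 𝓜.E X) 𝓜.R}
    (hρ : MetOn univ ρ) (ht : ∀ O, 𝓜.E O t ↔ OpenF ρ O) (hs : IsSeparable 𝓜.E X t)
    (x₀ : El 𝓜.E X) : ∃ e : IFun 𝓜 𝓜.N (El 𝓜.E X), ∀ x, ∀ ε > 0, ∃ n, ρ (x, e n) < ε := by
  obtain ⟨D, hD, hDX, hD'⟩ := hs
  have hball : ∀ (x : El 𝓜.E X), ∀ ε > 0, ∃ y : El 𝓜.E D, ρ (x, ⟨y.1, hDX _ y.2⟩) < ε := by
    intro x ε hε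
    obtain ⟨O, hO, hO'⟩ := openF_ball hρ x ε
    obtain ⟨y, hy, hy'⟩ := hD' O ((ht O).2 hO) ⟨x.1, (hO' x).2 (by
      rw [hρ.self x trivial]
      exact hε)⟩
    exact ⟨⟨y, hy⟩, (hO' ⟨y, hDX y hy⟩).1 hy'⟩
  obtain ⟨y₀, -⟩ := hball x₀ 1 one_pos
  obtain ⟨e, he⟩ := enum_of_isCountable hD y₀
  have hi : 𝓜.Dfn (fun y : El 𝓜.E D => (⟨y.1, hDX _ y.2⟩ : El 𝓜.E X)) := CodeMap.dfn (fun _ => rfl)
  refine ⟨⟨fun n => ⟨(e n).1, hDX _ (e n).2⟩, dfn_comp hi (ifun_dfn e)⟩, fun x ε hε => ?_⟩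
  obtain ⟨y, hy⟩ := hball x ε hε
  obtain ⟨n, rfl⟩ := he y
  exact ⟨n, hy⟩

/-! ### The Baire space as a Polish space of the model -/

/-- the underlying set of the Baire space -/
noncomputable def XB (𝓜 : Ctx.{u}) : 𝓜.M := 𝓜.car (Bai 𝓜)

theorem exists_toB (𝓜 : Ctx.{u}) : ∃ j : El 𝓜.E (XB 𝓜) → Bai 𝓜, ∀ q, 𝓜.code (j q) = q.1 := by
  have h : ∀ q : El 𝓜.E (XB 𝓜), ∃ f : Bai 𝓜, 𝓜.code f = q.1 := fun q => mem_car.1 q.2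
  choose j hj using h
  exact ⟨j, hj⟩

/-- the element of the Baire space given by an element of the set `XB` -/
noncomputable def toB (𝓜 : Ctx.{u}) : IFun 𝓜 (El 𝓜.E (XB 𝓜)) (Bai 𝓜) :=
  ⟨(exists_toB 𝓜).choose, CodeMap.dfn (exists_toB 𝓜).choose_spec⟩

theorem code_toB (q : El 𝓜.E (XB 𝓜)) : 𝓜.code (toB 𝓜 q) = q.1 := (exists_toB 𝓜).choose_spec q

/-- the inverse -/
noncomputable def ofB (x : Bai 𝓜) : El 𝓜.E (XB 𝓜) := ⟨𝓜.code x, code_mem x⟩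

@[simp] theorem toB_ofB (x : Bai 𝓜) : toB 𝓜 (ofB x) = x := code_inj (code_toB _)

@[simp] theorem ofB_toB (q : El 𝓜.E (XB 𝓜)) : ofB (toB 𝓜 q) = q := Subtype.ext (code_toB q)

theorem toB_inj {p q : El 𝓜.E (XB 𝓜)} (h : toB 𝓜 p = toB 𝓜 q) : p = q := by
  rw [← ofB_toB p, h, ofB_toB]

@[fun_prop]
theorem dfn_ofB {γ : Type*} [Rep 𝓜 γ] {x : γ → Bai 𝓜} (hx : 𝓜.Dfn x) :
    𝓜.Dfn (fun c => ofB (x c)) := dfn_comp (CodeMap.dfn (fun _ => rfl)) hx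

/-- the metric -/
noncomputable def ρB (𝓜 : Ctx.{u}) : IFun 𝓜 (El 𝓜.E (XB 𝓜) × El 𝓜.E (XB 𝓜)) 𝓜.R :=
  ⟨fun p => dB 𝓜 (toB 𝓜 p.1, toB 𝓜 p.2), by fun_prop⟩

theorem ρB_apply (p q : El 𝓜.E (XB 𝓜)) : ρB 𝓜 (p, q) = dB 𝓜 (toB 𝓜 p, toB 𝓜 q) := rfl

/-- the topology -/
noncomputable def τB (𝓜 : Ctx.{u}) : 𝓜.M := (exists_topology (ρB 𝓜)).choose

theorem mem_τB {O : 𝓜.M} : 𝓜.E O (τB 𝓜) ↔ OpenF (ρB 𝓜) O := (exists_topology (ρB 𝓜)).choose_spec O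

theorem isPolishB (𝓜 : Ctx.{u}) : IsPolish 𝓜.rl (XB 𝓜) (τB 𝓜) := by
  refine ⟨completelyMetrizable_iff.2 ⟨ρB 𝓜, ?_, ?_, fun O => mem_τB⟩, ?_⟩
  · refine ⟨⟨fun x _ => ?_, fun x y _ _ => ?_, fun x y z _ _ _ => ?_⟩, fun x y _ _ h => ?_⟩
    · exact metB.self _ trivial
    · exact metB.symm _ _ trivial trivial
    · exact metB.tri _ _ _ trivial trivial trivial
    · exact toB_inj (metB.sep _ _ trivial trivial h)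
  · intro a _ ha
    obtain ⟨y, -, hy⟩ := completeB ⟨fun n => toB 𝓜 (a n), by fun_prop⟩ (fun _ => trivial) ha
    refine ⟨ofB y, trivial, fun ε hε => ?_⟩
    obtain ⟨n, hn⟩ := hy ε hε
    refine ⟨n, fun m hm => ?_⟩
    rw [ρB_apply, toB_ofB]
    exact hn m hm
  · obtain ⟨e, he⟩ := exists_denseB 𝓜
    refine isSeparable_of_seq (fun O => mem_τB) ⟨fun n => ofB (e n), by fun_prop⟩ fun x ε hε => ?_
    obtain ⟨n, hn⟩ := exists_one_div_lt hε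
    obtain ⟨m, hm⟩ := he (toB 𝓜 x) n
    refine ⟨m, ?_⟩
    rw [ρB_apply]
    show dB 𝓜 (toB 𝓜 x, toB 𝓜 (ofB (e m))) < ε
    rw [toB_ofB]
    exact lt_of_le_of_lt (dB_le fun k hk => (hm k hk).symm) hn

/-- the set of the model given by an internal subset of the Baire space -/
theorem exists_setB (A : ISet 𝓜 (Bai 𝓜)) :
    ∃ S, (∀ x, 𝓜.E x S → 𝓜.E x (XB 𝓜)) ∧ ∀ x : Bai 𝓜, 𝓜.E (𝓜.code x) S ↔ A x := by
  obtain ⟨S, hS, hS'⟩ := exists_sub (X := XB 𝓜) (P := fun x => A (toB 𝓜 x)) (by fun_prop)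
  refine ⟨S, hS, fun x => ?_⟩
  have h1 := hS' (ofB x)
  rw [toB_ofB] at h1
  exact h1

end Pool.Agent.Lib.MP_0baed1_lc
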